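import Pool.Agent.H89.FP.Pt

/-! The local invariants of the points of cyclic coverings. -/

set_option autoImplicit false
set_option linter.all false

open Polynomial WithZero Filter Topology Module
open scoped Classical NNReal

namespace Pool.Agent.H89.FP

section pt

variable {k F L : Type} [Field k] [Finite k] [Field F] [Algebra k F]
  [Valued F (WithZero (Multiplicative ℤ))] [Field L] [Algebra F L] [Algebra k L]
  [IsScalarTower k F L] {w : Valuation L ℝ≥0}

/-- the local invariants of the points of the cyclic covering `y ^ r = A + t B` -/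
theorem loc_cyc {δ ℓ N e r : ℕ} [FiniteDimensional F L] (hpl : IsPlace k F δ) (hℓ : ℓ.Prime)
    {A B : MvPolynomial (Fin N) k} (hA : A.IsHomogeneous (r * e)) (hB : B.IsHomogeneous (r * e))
    (hr : ℓ ∣ r) (hr0 : r ≠ 0)
    (G : Set (MvPolynomial (Fin N) k)) (hG : ∀ H ∈ G, ∃ e, H.IsHomogeneous e)
    (hV : ∀ (E : Type) [Field E] [Algebra k E] [FiniteDimensional k E] (b : Fin N → E) (z : E),
      b ≠ 0 → (∀ H ∈ G, MvPolynomial.aeval b H = 0) → z ^ r = MvPolynomial.aeval b A →
      MvPolynomial.aeval b B = 0 → ℓ ∣ finrank k E)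
    (t : F) (m : ℕ) (ht : (vF F t ≤ 1 ∧ m = 0) ∨ vF F t = exp (m : ℤ)) (P : Fin N → L) (y : L)
    (hP : P ≠ 0) (hPG : ∀ H ∈ G, MvPolynomial.aeval P H = 0)
    (hPX : y ^ r = MvPolynomial.aeval P A + algebraMap F L t * MvPolynomial.aeval P B) :
    (ℓ : ℤ) ∣ δ * (ordF F (Algebra.norm F (MvPolynomial.aeval P B)) - m * finrank F L) := by
  by_cases hδ : ℓ ∣ δ
  · exact Dvd.dvd.mul_right (by exact_mod_cast hδ) _
  by_cases hα : ∃ α : L, α ^ (Nat.card k ^ ℓ) = α ∧ α ^ Nat.card k ≠ α
  · obtain ⟨α, h1, h2⟩ := hα
    exact case_a hpl hℓ hδ h1 h2 _ m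
  push Not at hα
  haveI := hpl.complete
  obtain ⟨w, hw⟩ := exists_ext F hpl.nontrivial L
  obtain ⟨c, x, hc, hPc, hx, i₀, hi₀⟩ := primitive w P hP
  have hPe : P = fun i => c * x i := funext hPc
  set y' : L := (c ^ e)⁻¹ * y with hy'
  have hxX : y' ^ r = MvPolynomial.aeval x A + algebraMap F L t * MvPolynomial.aeval x B := by
    rw [hPe, aeval_smul_hom hA, aeval_smul_hom hB] at hPX
    have h1 : c ^ (r * e) = (c ^ e) ^ r := by rw [← pow_mul, mul_comm]
    rw [hy', mul_pow, hPX, h1, inv_pow]
    have h2 : (c ^ e) ^ r ≠ 0 := pow_ne_zero _ (pow_ne_zero _ hc)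
    field_simp
  have hxG : ∀ H ∈ G, MvPolynomial.aeval x H = 0 := by
    intro H hH
    obtain ⟨e, he⟩ := hG H hH
    have h1 := hPG H hH
    rw [hPe, aeval_smul_hom he] at h1
    exact (mul_eq_zero.1 h1).resolve_left (pow_ne_zero _ hc)
  have hle : ∀ H : MvPolynomial (Fin N) k, w (MvPolynomial.aeval x H) ≤ 1 := by
    intro H
    rw [MvPolynomial.aeval_def, MvPolynomial.eval₂_eq']
    refine Valuation.map_sum_le w fun s _ => ?_
    rw [map_mul, map_prod]
    refine mul_le_one' (w_const_le w _) (Finset.prod_le_one' fun i _ => ?_)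
    rw [map_pow]
    exact pow_le_one' (hx i) _
  -- there is no reduction in the base locus
  have hkey : w y' ≤ 1 → w (MvPolynomial.aeval x B) < 1 →
      ¬ w (y' ^ r - MvPolynomial.aeval x A) < 1 := by
    intro hy1 h1 h2
    let a : Option (Fin N) → L := fun o => o.elim y' x
    obtain ⟨E, iE, iA, b, hfd, hnd, hred⟩ := reduce hpl hw hℓ hα a (by
      intro o
      cases o with
      | none => exact hy1
      | some i => exact hx i)
    have hren : ∀ H : MvPolynomial (Fin N) k,
        MvPolynomial.aeval a (MvPolynomial.rename some H) = MvPolynomial.aeval x H := by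
      intro H
      rw [MvPolynomial.aeval_rename]
      rfl
    have hren' : ∀ H : MvPolynomial (Fin N) k,
        MvPolynomial.aeval b (MvPolynomial.rename some H) =
          MvPolynomial.aeval (fun i => b (some i)) H := by
      intro H
      rw [MvPolynomial.aeval_rename]
      rfl
    refine hnd (hV E (fun i => b (some i)) (b none) ?_ ?_ ?_ ?_)
    · intro hb
      have h3 := (hred (MvPolynomial.X (some i₀))).1 (by
        rw [MvPolynomial.aeval_X]; exact congrFun hb i₀)
      rw [MvPolynomial.aeval_X] at h3
      change w (x i₀) < 1 at h3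
      rw [hi₀, map_one] at h3
      exact lt_irrefl _ h3
    · intro H hH
      rw [← hren', hred, hren, hxG H hH, map_zero]
      exact zero_lt_one
    · have h3 : MvPolynomial.aeval b (MvPolynomial.X none ^ r - MvPolynomial.rename some A) = 0 := by
        rw [hred, map_sub, map_pow, MvPolynomial.aeval_X, hren]
        exact h2
      rw [map_sub, map_pow, MvPolynomial.aeval_X, hren', sub_eq_zero] at h3
      exact h3
    · rw [← hren', hred, hren]
      exact h1
  -- the value
  have hmain : MvPolynomial.aeval x B ≠ 0 ∧
      ∃ j : ℤ, ordF F (Algebra.norm F (MvPolynomial.aeval x B)) = r * j + m * finrank F L := by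
    rcases ht with ⟨ht, hm⟩ | ht
    · have hy1 : w y' ≤ 1 := by
        have h1 : w y' ^ r ≤ 1 := by
          rw [← map_pow, hxX]
          refine (w.map_add _ _).trans (max_le (hle A) ?_)
          rw [map_mul]
          exact mul_le_one' (w_le_of_v hw ht) (hle B)
        exact (pow_le_one_iff_of_nonneg zero_le hr0).1 h1
      have h1 : w (MvPolynomial.aeval x B) = 1 := by
        refine le_antisymm (hle B) (not_lt.1 fun h1 => hkey hy1 h1 ?_)
        rw [hxX, add_sub_cancel_left, map_mul]
        calc w (algebraMap F L t) * w (MvPolynomial.aeval x B)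
            ≤ 1 * w (MvPolynomial.aeval x B) := mul_le_mul_left (w_le_of_v hw ht) _
          _ < 1 := by rwa [one_mul]
      refine ⟨?_, 0, ?_⟩
      · intro h0; rw [h0, map_zero] at h1; exact zero_ne_one h1
      · rw [ord_norm_of_unit hw h1, hm]; simp
    · by_cases hm0 : m = 0
      · -- again an integral coefficient
        have ht1 : vF F t ≤ 1 := by rw [ht, hm0]; exact le_of_eq exp_zero
        have hy1 : w y' ≤ 1 := by
          have h1 : w y' ^ r ≤ 1 := by
            rw [← map_pow, hxX]
            refine (w.map_add _ _).trans (max_le (hle A) ?_)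
            rw [map_mul]
            exact mul_le_one' (w_le_of_v hw ht1) (hle B)
          exact (pow_le_one_iff_of_nonneg zero_le hr0).1 h1
        have h1 : w (MvPolynomial.aeval x B) = 1 := by
          refine le_antisymm (hle B) (not_lt.1 fun h1 => hkey hy1 h1 ?_)
          rw [hxX, add_sub_cancel_left, map_mul]
          calc w (algebraMap F L t) * w (MvPolynomial.aeval x B)
              ≤ 1 * w (MvPolynomial.aeval x B) := mul_le_mul_left (w_le_of_v hw ht1) _
            _ < 1 := by rwa [one_mul]
        refine ⟨?_, 0, ?_⟩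
        · intro h0; rw [h0, map_zero] at h1; exact zero_ne_one h1
        · rw [ord_norm_of_unit hw h1, hm0]; simp
      have ht0 : t ≠ 0 := by
        rintro rfl
        have : vF F (0 : F) = 0 := map_zero _
        rw [this] at ht
        exact exp_ne_zero ht.symm
      have htL : algebraMap F L t ≠ 0 := by rwa [Ne, map_eq_zero]
      have e : MvPolynomial.aeval x B =
          algebraMap F L (t⁻¹) * (y' ^ r - MvPolynomial.aeval x A) := by
        rw [map_inv₀]
        field_simp
        linear_combination -hxX
      have hvt : vF F (t⁻¹) = exp (-(m : ℤ)) := by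
        change Valued.v (t⁻¹) = _
        rw [map_inv₀]
        change (vF F t)⁻¹ = _
        rw [ht, exp_neg]
      have hwt : w (algebraMap F L (t⁻¹)) < 1 := by
        refine w_lt_of_v hw ?_
        rw [hvt, ← exp_zero, exp_lt_exp]
        omega
      have hti : algebraMap F L (t⁻¹) ≠ 0 := by
        rw [Ne, map_eq_zero, inv_eq_zero]
        exact ht0
      rcases le_or_gt (w y') 1 with hy1 | hy1
      · have h1 : w (y' ^ r - MvPolynomial.aeval x A) ≤ 1 := by
          refine (w.map_sub _ _).trans (max_le ?_ (hle A))
          rw [map_pow]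
          exact pow_le_one' hy1 _
        have h2 : w (MvPolynomial.aeval x B) < 1 := by
          rw [e, map_mul]
          calc w (algebraMap F L (t⁻¹)) * w (y' ^ r - MvPolynomial.aeval x A)
              ≤ w (algebraMap F L (t⁻¹)) * 1 := mul_le_mul_right h1 _
            _ < 1 := by rwa [mul_one]
        have h3 : w (y' ^ r - MvPolynomial.aeval x A) = 1 :=
          le_antisymm h1 (not_lt.1 (hkey hy1 h2))
        have h4 : y' ^ r - MvPolynomial.aeval x A ≠ 0 := by
          intro h0; rw [h0, map_zero] at h3; exact zero_ne_one h3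
        refine ⟨?_, 0, ?_⟩
        · rw [e]
          exact mul_ne_zero hti h4
        · rw [e, map_mul, ordF_mul, ord_norm_of_unit hw h3, add_zero, Algebra.norm_algebraMap,
            ordF_pow, ordF_of_exp hvt]
          · ring
          · rw [Algebra.norm_algebraMap]
            exact pow_ne_zero _ (inv_ne_zero ht0)
          · exact Algebra.norm_ne_zero_iff.2 h4
      · have hy0 : y' ≠ 0 := by
          rintro h0
          rw [h0, map_zero] at hy1
          exact absurd hy1 (not_lt.2 zero_le)
        have h1 : w (y' ^ r) = w (y' ^ r - MvPolynomial.aeval x A) := by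
          have h2 : w (MvPolynomial.aeval x A) < w (y' ^ r) := by
            refine (hle A).trans_lt ?_
            rw [map_pow]
            exact one_lt_pow₀ hy1 hr0
          exact (Valuation.map_sub_eq_of_lt_left w h2).symm
        have h4 : y' ^ r - MvPolynomial.aeval x A ≠ 0 := by
          intro h0
          rw [h0, map_zero, Valuation.zero_iff] at h1
          exact pow_ne_zero _ hy0 h1
        have h5 : ordF F (Algebra.norm F (y' ^ r - MvPolynomial.aeval x A)) =
            r * ordF F (Algebra.norm F y') := by
          have h6 : vF F (Algebra.norm F (y' ^ r - MvPolynomial.aeval x A)) =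
              vF F (Algebra.norm F (y' ^ r)) := by
            apply hm_mono.injective
            rw [← hw.norm, ← hw.norm, h1]
          unfold ordF
          rw [h6, map_pow]
          change -(log (Valued.v (Algebra.norm F y' ^ r))) = _
          rw [map_pow, log_pow, nsmul_eq_mul]
          ring
        refine ⟨?_, ordF F (Algebra.norm F y'), ?_⟩
        · rw [e]
          exact mul_ne_zero hti h4
        · rw [e, map_mul, ordF_mul, h5, Algebra.norm_algebraMap, ordF_pow, ordF_of_exp hvt]
          · ring
          · rw [Algebra.norm_algebraMap]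
            exact pow_ne_zero _ (inv_ne_zero ht0)
          · exact Algebra.norm_ne_zero_iff.2 h4
  obtain ⟨hB0, j, hord⟩ := hmain
  have h1 : ordF F (Algebra.norm F (MvPolynomial.aeval P B)) =
      r * e * ordF F (Algebra.norm F c) + r * j + m * finrank F L := by
    rw [hPe, aeval_smul_hom hB, map_mul, ordF_mul, hord, map_pow, ordF_pow]
    · push_cast; ring
    · exact Algebra.norm_ne_zero_iff.2 (pow_ne_zero _ hc)
    · exact Algebra.norm_ne_zero_iff.2 hB0
  have h2 : ordF F (Algebra.norm F (MvPolynomial.aeval P B)) - m * finrank F L =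
      r * (e * ordF F (Algebra.norm F c) + j) := by
    rw [h1]; ring
  rw [h2]
  exact Dvd.dvd.mul_left (Dvd.dvd.mul_right (by exact_mod_cast hr) _) _

end pt

end Pool.Agent.H89.FP
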