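import Mathlib

/-! The extension of a complete discrete valuation to a finite extension. -/

set_option autoImplicit false
set_option linter.all false

open Polynomial WithZero Filter Topology Module
open scoped Classical NNReal

namespace Pool.Agent.H89.FP

/-- The map of the value group to the real numbers. -/
noncomputable def hm : WithZero (Multiplicative ℤ) →*₀ ℝ≥0 :=
  WithZeroMulInt.toNNReal (e := 2) two_ne_zero

theorem hm_mono : StrictMono hm := WithZeroMulInt.toNNReal_strictMono (e := 2) one_lt_two

theorem hm_exp (n : ℤ) : hm (exp n) = (2 : ℝ≥0) ^ n := by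
  unfold hm
  rw [WithZeroMulInt.toNNReal_neg_apply _ (exp_ne_zero)]
  rfl

section gen

variable (F : Type) [Field F] [Valued F (WithZero (Multiplicative ℤ))]

/-- the valuation -/
noncomputable abbrev vF (x : F) : WithZero (Multiplicative ℤ) :=
  Valued.v (R := F) (Γ₀ := WithZero (Multiplicative ℤ)) x

/-- The rank one structure. -/
@[instance_reducible]
noncomputable def rk (h : ∃ x : F, x ≠ 0 ∧ vF F x ≠ 1) :
    Valuation.RankOne (Valued.v (R := F) (Γ₀ := WithZero (Multiplicative ℤ))) where
  hom' := hm.comp MonoidWithZeroHom.ValueGroup₀.embedding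
  strictMono' := hm_mono.comp MonoidWithZeroHom.ValueGroup₀.embedding_strictMono
  exists_val_nontrivial := by
    obtain ⟨x, h0, h1⟩ := h
    exact ⟨x, (Valuation.ne_zero_iff _).2 h0, h1⟩

/-- `w` extends the valuation of `F` to the finite extension `L` -/
structure IsExt (L : Type) [Field L] [Algebra F L] (w : Valuation L ℝ≥0) : Prop where
  ext : ∀ x : F, w (algebraMap F L x) = hm (vF F x)
  norm : ∀ x : L, w x ^ finrank F L = hm (vF F (Algebra.norm F x))
  int : ∀ x : L, w x ≤ 1 → ∀ i, vF F ((minpoly F x).coeff i) ≤ 1
  lim : ∀ (u : ℕ → L) (c : ℝ≥0), c < 1 → (∀ m, w (u (m + 1) - u m) ≤ c ^ m) →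
    ∃ x, ∀ m, w (x - u m) ≤ c ^ m

/-- the norm in terms of the minimal polynomial -/
theorem norm_minpoly {K L : Type} [Field K] [Field L] [Algebra K L] [FiniteDimensional K L] (x : L) :
    ∃ e : ℕ, finrank K L = (minpoly K x).natDegree * e ∧
      Algebra.norm K x = ((-1) ^ (minpoly K x).natDegree * (minpoly K x).coeff 0) ^ e := by
  have hxi : IsIntegral K x := Algebra.IsIntegral.isIntegral x
  let pb : PowerBasis K (IntermediateField.adjoin K {x}) := IntermediateField.adjoin.powerBasis hxi
  have hgen : pb.gen = IntermediateField.AdjoinSimple.gen K x :=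
    IntermediateField.adjoin.powerBasis_gen hxi
  have hmp : minpoly K (IntermediateField.AdjoinSimple.gen K x) = minpoly K x :=
    IntermediateField.minpoly_gen K x
  have hd : finrank K (IntermediateField.adjoin K {x}) = (minpoly K x).natDegree := by
    rw [pb.finrank, ← pb.natDegree_minpoly, hgen, hmp]
  refine ⟨finrank (IntermediateField.adjoin K {x}) L, ?_, ?_⟩
  · rw [← hd, Module.finrank_mul_finrank]
  · have h1 : x = algebraMap (IntermediateField.adjoin K {x}) L
        (IntermediateField.AdjoinSimple.gen K x) := rfl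
    conv_lhs => rw [h1]
    rw [← Algebra.norm_norm (R := K) (S := IntermediateField.adjoin K {x}) (A := L),
      Algebra.norm_algebraMap, map_pow]
    congr 1
    rw [← hgen, Algebra.PowerBasis.norm_gen_eq_coeff_zero_minpoly, ← pb.natDegree_minpoly, hgen, hmp]

theorem exists_ext [CompleteSpace F] (h : ∃ x : F, x ≠ 0 ∧ vF F x ≠ 1) (L : Type) [Field L]
    [Algebra F L] [FiniteDimensional F L] : ∃ w : Valuation L ℝ≥0, IsExt F L w := by
  letI rk0 : Valuation.RankOne (Valued.v (R := F) (Γ₀ := WithZero (Multiplicative ℤ))) := rk F h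
  letI nf : NontriviallyNormedField F :=
    Valued.toNontriviallyNormedField (L := F) (Γ₀ := WithZero (Multiplicative ℤ))
  haveI : IsUltrametricDist F := by infer_instance
  haveI : CompleteSpace F := by infer_instance
  have hnorm : ∀ x : F, ‖x‖ = ((hm (vF F x) : ℝ≥0) : ℝ) := by
    intro x
    change ((hm (MonoidWithZeroHom.ValueGroup₀.embedding
      ((Valued.v (R := F) (Γ₀ := WithZero (Multiplicative ℤ))).restrict x)) : ℝ≥0) : ℝ) = _
    rw [Valuation.embedding_restrict]
  let w : Valuation L ℝ≥0 :=
    { toFun := fun x => ⟨spectralNorm F L x, spectralNorm_nonneg x⟩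
      map_zero' := by
        apply NNReal.eq
        exact spectralNorm_zero
      map_one' := by
        apply NNReal.eq
        exact spectralNorm_one
      map_mul' := fun x y => by
        apply NNReal.eq
        exact spectralAlgNorm_mul x y
      map_add_le_max' := fun x y => by
        have h1 : spectralNorm F L (x + y) ≤ max (spectralNorm F L x) (spectralNorm F L y) :=
          isNonarchimedean_spectralNorm x y
        rcases le_max_iff.1 h1 with h2 | h2
        · exact le_max_of_le_left h2
        · exact le_max_of_le_right h2 }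
  refine ⟨w, ⟨fun x => ?_, fun x => ?_, fun x hx i => ?_, fun u c hc hu => ?_⟩⟩
  · apply NNReal.eq
    change spectralNorm F L (algebraMap F L x) = _
    rw [spectralNorm_extends, hnorm]
  · apply NNReal.eq
    change (spectralNorm F L x) ^ finrank F L = ((hm (vF F (Algebra.norm F x)) : ℝ≥0) : ℝ)
    rw [← hnorm]
    obtain ⟨e, he1, he2⟩ := norm_minpoly (K := F) x
    have hd : (minpoly F x).natDegree ≠ 0 :=
      (minpoly.natDegree_pos (Algebra.IsIntegral.isIntegral x)).ne'
    rw [he1, he2, norm_pow, norm_mul, norm_pow, norm_neg, norm_one, one_pow, one_mul, pow_mul]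
    congr 1
    rw [spectralNorm.spectralNorm_eq_norm_coeff_zero_rpow, one_div, Real.rpow_inv_natCast_pow (norm_nonneg _) hd]
  · have h1 : spectralValue (minpoly F x) ≤ 1 := by exact_mod_cast hx
    rw [spectralValue_le_one_iff (minpoly.monic (Algebra.IsIntegral.isIntegral x))] at h1
    have h2 := h1 i
    rw [hnorm] at h2
    have h3 : hm (vF F ((minpoly F x).coeff i)) ≤ hm 1 := by
      rw [map_one]
      exact_mod_cast h2
    exact hm_mono.le_iff_le.1 h3
  · letI nL : NormedField L := spectralNorm.normedField F L
    haveI cL : CompleteSpace L := spectralNorm.completeSpace F L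
    have hw : ∀ x : L, ‖x‖ = ((w x : ℝ≥0) : ℝ) := fun x => rfl
    have hc' : (c : ℝ) < 1 := by exact_mod_cast hc
    have hstep : ∀ m, dist (u m) (u (m + 1)) ≤ 1 * (c : ℝ) ^ m := by
      intro m
      rw [dist_comm, dist_eq_norm, hw, one_mul]
      exact_mod_cast hu m
    have hcau : CauchySeq u := cauchySeq_of_le_geometric (c : ℝ) 1 hc' hstep
    obtain ⟨x, hx⟩ := cauchySeq_tendsto_of_complete hcau
    refine ⟨x, fun m => ?_⟩
    have hmn : ∀ j, w (u (m + j) - u m) ≤ c ^ m := by
      intro j
      induction j with
      | zero => simp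
      | succ j ih =>
        have e : u (m + (j + 1)) - u m = (u (m + j + 1) - u (m + j)) + (u (m + j) - u m) := by
          rw [add_assoc]; ring
        rw [e]
        refine (w.map_add _ _).trans (max_le ((hu (m + j)).trans ?_) ih)
        exact pow_le_pow_right_of_le_one' hc.le (Nat.le_add_right m j)
    have hlim : Tendsto (fun j => ‖u (m + j) - u m‖) atTop (𝓝 ‖x - u m‖) := by
      have h1 : Tendsto (fun j => u (m + j)) atTop (𝓝 x) := by
        have := hx.comp (tendsto_add_atTop_nat m)
        refine this.congr fun j => ?_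
        rw [Function.comp_apply, add_comm]
      exact (h1.sub_const _).norm
    have h2 : ‖x - u m‖ ≤ ((c ^ m : ℝ≥0) : ℝ) := by
      refine le_of_tendsto hlim (Eventually.of_forall fun j => ?_)
      rw [hw]
      exact_mod_cast hmn j
    rw [hw] at h2
    exact_mod_cast h2

end gen

end Pool.Agent.H89.FP
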