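import Mathlib

/-! Points over extensions of degree prime to `ℓ`. -/

set_option autoImplicit false
set_option linter.all false

open Polynomial Module

namespace Pool.Agent.H89.FP

section glob

variable {K : Type} [Field K]

theorem exists_factor {ℓ : ℕ} : ∀ (n : ℕ) (p : K[X]), p.natDegree ≤ n → p ≠ 0 →
    ¬ ℓ ∣ p.natDegree → ∃ r : K[X], Irreducible r ∧ r ∣ p ∧ ¬ ℓ ∣ r.natDegree := by
  intro n
  induction n with
  | zero =>
    intro p hp _ hd
    rw [Nat.le_zero.1 hp] at hd
    exact absurd (dvd_zero _) hd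
  | succ n ih =>
    intro p hp hp0 hd
    have hu : ¬ IsUnit p := by
      intro hu
      rw [natDegree_eq_zero_of_isUnit hu] at hd
      exact hd (dvd_zero _)
    obtain ⟨ρ, hρm, hρi, q, hq⟩ := Polynomial.exists_monic_irreducible_factor p hu
    by_cases hρ : ℓ ∣ ρ.natDegree
    · have hq0 : q ≠ 0 := by
        rintro rfl
        rw [mul_zero] at hq
        exact hp0 hq
      have hdeg : p.natDegree = ρ.natDegree + q.natDegree := by
        rw [hq, natDegree_mul hρm.ne_zero hq0]
      have hρd : 0 < ρ.natDegree := hρi.natDegree_pos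
      obtain ⟨r, h1, h2, h3⟩ := ih q (by omega) hq0 (fun h => hd (by
        rw [hdeg]; exact dvd_add hρ h))
      exact ⟨r, h1, h2.trans ⟨ρ, by rw [hq, mul_comm]⟩, h3⟩
    · exact ⟨ρ, hρi, ⟨q, hq⟩, hρ⟩

/-- a root in an extension of degree prime to `ℓ` -/
theorem exists_root_ext {ℓ : ℕ} (p : K[X]) (hp : p ≠ 0) (hd : ¬ ℓ ∣ p.natDegree) :
    ∃ (L : Type) (_ : Field L) (_ : Algebra K L) (x : L), FiniteDimensional K L ∧
      ¬ ℓ ∣ finrank K L ∧ aeval x p = 0 := by
  obtain ⟨r, h1, h2, h3⟩ := exists_factor _ p le_rfl hp hd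
  haveI : Fact (Irreducible r) := ⟨h1⟩
  refine ⟨AdjoinRoot r, inferInstance, inferInstance, AdjoinRoot.root r,
    (AdjoinRoot.powerBasis h1.ne_zero).finite, ?_, ?_⟩
  · rw [(AdjoinRoot.powerBasis h1.ne_zero).finrank, AdjoinRoot.powerBasis_dim]
    exact h3
  · rw [AdjoinRoot.aeval_eq, AdjoinRoot.mk_eq_zero]
    exact h2

/-- constants in an extension of degree prime to `ℓ` -/
theorem exists_const_ext {k : Type} [Field k] [Finite k] [Algebra k K] {ℓ : ℕ} (E : Type) [Field E]
    [Algebra k E] [FiniteDimensional k E] (hd : ¬ ℓ ∣ finrank k E) :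
    ∃ (L : Type) (_ : Field L) (_ : Algebra K L), FiniteDimensional K L ∧ ¬ ℓ ∣ finrank K L ∧
      ∃ g : E →+* L, ∀ c : k, g (algebraMap k E c) = algebraMap K L (algebraMap k K c) := by
  haveI : Finite E := Module.finite_of_finite k
  haveI : Algebra.IsSeparable k E := inferInstance
  let pb := Field.powerBasisOfFiniteOfSeparable k E
  set μ := minpoly k pb.gen with hμ
  have hμ0 : μ.map (algebraMap k K) ≠ 0 :=
    ((minpoly.monic (Algebra.IsIntegral.isIntegral pb.gen)).map _).ne_zero
  have hμd : (μ.map (algebraMap k K)).natDegree = finrank k E := by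
    rw [natDegree_map, hμ, pb.natDegree_minpoly, pb.finrank]
  obtain ⟨L, iL, iA, x, hfd, hnd, hx⟩ := exists_root_ext (ℓ := ℓ) (μ.map (algebraMap k K)) hμ0
    (by rwa [hμd])
  letI : Algebra k L := ((algebraMap K L).comp (algebraMap k K)).toAlgebra
  haveI : IsScalarTower k K L := IsScalarTower.of_algebraMap_eq' rfl
  have hx' : aeval x μ = 0 := by
    rw [aeval_map_algebraMap] at hx
    exact hx
  refine ⟨L, iL, iA, hfd, hnd, (pb.lift x hx').toRingHom, fun c => ?_⟩
  exact (pb.lift x hx').commutes c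

theorem prod_line {N : ℕ} (a b : Fin N → K) (s : Fin N → ℕ) (S : Finset (Fin N)) :
    (∏ i ∈ S, (C (a i) + C (b i) * X) ^ s i).natDegree ≤ ∑ i ∈ S, s i ∧
    (∏ i ∈ S, (C (a i) + C (b i) * X) ^ s i).coeff (∑ i ∈ S, s i) = ∏ i ∈ S, b i ^ s i := by
  classical
  induction S using Finset.induction_on with
  | empty => simp
  | insert i S hi ih =>
    have h1 : (C (a i) + C (b i) * X).natDegree ≤ 1 := by
      refine (natDegree_add_le _ _).trans (max_le (by simp) ?_)
      exact (natDegree_C_mul_le _ _).trans natDegree_X_le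
    have h2 : ((C (a i) + C (b i) * X) ^ s i).natDegree ≤ s i := by
      refine natDegree_pow_le.trans ?_
      calc s i * (C (a i) + C (b i) * X).natDegree ≤ s i * 1 := Nat.mul_le_mul_left _ h1
        _ = s i := mul_one _
    have h3 : ((C (a i) + C (b i) * X) ^ s i).coeff (s i) = b i ^ s i := by
      have := coeff_pow_of_natDegree_le (m := s i) h1
      rw [mul_one] at this
      rw [this]
      simp [coeff_C]
    rw [Finset.prod_insert hi, Finset.sum_insert hi, Finset.prod_insert hi]
    exact ⟨natDegree_mul_le.trans (add_le_add h2 ih.1), by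
      rw [coeff_mul_add_eq_of_natDegree_le h2 ih.1, h3, ih.2]⟩

/-- a form on a line -/
theorem line_poly {k : Type} [Field k] [Algebra k K] {N d : ℕ} {H : MvPolynomial (Fin N) k}
    (hH : H.IsHomogeneous d) (p q : Fin N → k) :
    (MvPolynomial.aeval (fun i => C (algebraMap k K (p i)) + C (algebraMap k K (q i)) * X :
      Fin N → K[X]) H).natDegree ≤ d ∧
    (MvPolynomial.aeval (fun i => C (algebraMap k K (p i)) + C (algebraMap k K (q i)) * X :
      Fin N → K[X]) H).coeff d = MvPolynomial.aeval (fun i => algebraMap k K (q i)) H := by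
  have hs : ∀ s ∈ H.support, ∑ i, s i = d := by
    intro s hs
    have h2 := hH (MvPolynomial.mem_support_iff.1 hs)
    rw [← h2]
    simp [Finsupp.weight_apply, Finsupp.sum_fintype]
  rw [MvPolynomial.aeval_def, MvPolynomial.aeval_def, MvPolynomial.eval₂_eq',
    MvPolynomial.eval₂_eq']
  have hC : ∀ c : k, algebraMap k K[X] c = C (algebraMap k K c) := fun c =>
    IsScalarTower.algebraMap_apply k K K[X] c
  constructor
  · refine natDegree_sum_le_of_forall_le _ _ fun s hs' => ?_
    rw [hC]
    refine (natDegree_C_mul_le _ _).trans ?_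
    rw [← hs s hs']
    exact (prod_line _ _ _ _).1
  · rw [finsetSum_coeff]
    refine Finset.sum_congr rfl fun s hs' => ?_
    rw [hC, coeff_C_mul, ← hs s hs', (prod_line _ _ _ _).2]

end glob

end Pool.Agent.H89.FP
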