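import Pool.Agent.H89.FP.Cyc

/-! The places of `k(t)`. -/

set_option autoImplicit false
set_option linter.all false

open Polynomial WithZero Filter Topology Module IsDedekindDomain
open scoped Classical NNReal

namespace Pool.Agent.H89.FP

section place

theorem approx {F K : Type} [Field F] [Valued F (WithZero (Multiplicative ℤ))] [Field K]
    (ι : K → F) (hι : DenseRange ι) (x : F) : ∃ y : K, vF F (ι y - x) < 1 := by
  have h1 : {y : F | vF F (y - x) < 1} ∈ 𝓝 x := by
    rw [Valued.mem_nhds]
    refine ⟨1, fun y hy => ?_⟩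
    change (Valued.v (R := F) (Γ₀ := WithZero (Multiplicative ℤ))).restrict (y - x) < 1 at hy
    have h2 := MonoidWithZeroHom.ValueGroup₀.embedding_strictMono hy
    rw [Valuation.embedding_restrict, map_one] at h2
    exact h2
  obtain ⟨y, hy⟩ := hι.mem_nhds h1
  exact ⟨y, hy⟩

variable {k : Type} [Field k] [Finite k]

theorem place_fin (v : HeightOneSpectrum k[X]) :
    IsPlace k (v.adicCompletion (RatFunc k)) (finrank k (k[X] ⧸ v.asIdeal)) := by
  set F := v.adicCompletion (RatFunc k) with hF
  obtain ⟨p, hp⟩ : ∃ p : k[X], v.asIdeal = Ideal.span {p} :=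
    (IsPrincipalIdealRing.principal v.asIdeal).principal
  have hp0 : p ≠ 0 := by
    rintro rfl
    apply v.ne_bot
    rw [hp]
    simp
  haveI : FiniteDimensional k (k[X] ⧸ v.asIdeal) := by
    rw [hp]
    exact (AdjoinRoot.powerBasis hp0).finite
  haveI : v.asIdeal.IsMaximal := v.isMaximal
  letI : Field (k[X] ⧸ v.asIdeal) := Ideal.Quotient.field _
  have hval : ∀ x : RatFunc k, vF F (algebraMap (RatFunc k) F x) = v.valuation (RatFunc k) x :=
    fun x => v.valuedAdicCompletion_eq_valuation' x
  refine ⟨inferInstance, ?_, finrank_pos, fun x hx => ?_⟩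
  · obtain ⟨π, hπ⟩ := v.valuation_exists_uniformizer (RatFunc k)
    refine ⟨algebraMap _ F π, ?_, ?_⟩
    · intro h
      have h1 := hval π
      rw [h, hπ] at h1
      have h2 : vF F (0 : F) = 0 := map_zero _
      rw [h2] at h1
      exact exp_ne_zero h1.symm
    · rw [hval, hπ]
      intro h
      rw [← exp_zero, exp_inj] at h
      omega
  · obtain ⟨y, hy⟩ := approx (algebraMap (RatFunc k) F) (v.denseRange_algebraMap (RatFunc k)) x
    have hy1 : v.valuation (RatFunc k) y ≤ 1 := by
      rw [← hval]
      have e : algebraMap (RatFunc k) F y = (algebraMap (RatFunc k) F y - x) + x := by ring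
      rw [e]
      exact (Valuation.map_add _ _ _).trans (max_le hy.le hx)
    obtain ⟨r, hr⟩ := v.exists_valuation_sub_lt_of_integer (K := RatFunc k) hy1 1
    -- `r` is close to `x`
    set r' : F := algebraMap (RatFunc k) F (algebraMap k[X] (RatFunc k) r) with hr'
    have h1 : vF F (r' - x) < 1 := by
      have e : r' - x = algebraMap (RatFunc k) F (algebraMap k[X] (RatFunc k) r - y) +
          (algebraMap (RatFunc k) F y - x) := by
        rw [map_sub]; ring
      rw [e]
      refine (Valuation.map_add _ _ _).trans_lt (max_lt ?_ hy)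
      change vF F _ < 1
      rw [hval]
      exact hr
    set n := Nat.card k ^ finrank k (k[X] ⧸ v.asIdeal) with hn
    have h2 : vF F (r' ^ n - r') < 1 := by
      rw [hr', ← map_pow, ← map_pow, ← map_sub, ← map_sub, hval, v.valuation_lt_one_iff_mem,
        ← Ideal.Quotient.eq_zero_iff_mem, map_sub, map_pow, sub_eq_zero]
      haveI : Finite (k[X] ⧸ v.asIdeal) := Module.finite_of_finite k
      haveI := Fintype.ofFinite (k[X] ⧸ v.asIdeal)
      have h3 : n = Fintype.card (k[X] ⧸ v.asIdeal) := by
        rw [hn, ← Module.natCard_eq_pow_finrank (K := k), Nat.card_eq_fintype_card]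
      rw [h3]
      exact FiniteField.pow_card _
    have e : x ^ n - x = (r' ^ n - r') - ((r' - x) ^ n - (r' - x)) := by
      rw [hn, frob k F]
      ring
    rw [e]
    have h4 : vF F ((r' - x) ^ n - (r' - x)) < 1 := by
      refine (Valuation.map_sub _ _ _).trans_lt (max_lt ?_ h1)
      rw [map_pow]
      exact pow_lt_one₀ zero_le h1 (pow_ne_zero _ (Nat.card_pos.ne'))
    exact (Valuation.map_sub _ _ _).trans_lt (max_lt h2 h4)

theorem fin_poly (v : HeightOneSpectrum k[X]) (u : k[X]) :
    vF (v.adicCompletion (RatFunc k)) (algebraMap (RatFunc k) _ (algebraMap k[X] (RatFunc k) u)) ≤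
      1 := by
  have h1 := v.valuedAdicCompletion_eq_valuation' (K := RatFunc k) (algebraMap k[X] (RatFunc k) u)
  have h2 := v.valuation_le_one (K := RatFunc k) u
  rw [← h1] at h2
  exact h2

end place

section inf

variable (k : Type) [Field k]

section val

attribute [-instance] RatFunc.valuedRatFunc
attribute [local instance] RatFunc.inftyValued

theorem inf_val (x : RatFunc k) : vF (RatFunc.CompletionAtInfty k)
    (algebraMap (RatFunc k) (RatFunc.CompletionAtInfty k) x) = RatFunc.inftyValuation k x := by
  have h := Valued.valuedCompletion_apply (K := RatFunc k) x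
  exact h

theorem inf_dense : DenseRange (algebraMap (RatFunc k) (RatFunc.CompletionAtInfty k)) := by
  exact UniformSpace.Completion.denseRange_coe (α := RatFunc k)

theorem inf_complete : CompleteSpace (RatFunc.CompletionAtInfty k) := by
  exact UniformSpace.Completion.completeSpace (RatFunc k)

end val

/-- constants in the completion at infinity -/
@[instance_reducible]
noncomputable def algInf : Algebra k (RatFunc.CompletionAtInfty k) :=
  ((algebraMap (RatFunc k) (RatFunc.CompletionAtInfty k)).comp
    (algebraMap k (RatFunc k))).toAlgebra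

theorem inf_const (y : RatFunc k) (hy : RatFunc.inftyValuation k y ≤ 1) :
    ∃ c : k, RatFunc.inftyValuation k (y - algebraMap k (RatFunc k) c) < 1 := by
  have hd0 : y.denom ≠ 0 := y.denom_ne_zero
  have hd0' : algebraMap k[X] (RatFunc k) y.denom ≠ 0 := by
    rwa [Ne, FaithfulSMul.algebraMap_eq_zero_iff]
  have hpoly : ∀ p : k[X], p ≠ 0 → RatFunc.inftyValuation k (algebraMap k[X] (RatFunc k) p) =
      exp (p.natDegree : ℤ) := fun p hp => RatFunc.inftyValuation.polynomial k hp
  set n := y.denom.natDegree with hn
  set c : k := y.num.coeff n with hc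
  refine ⟨c, ?_⟩
  have e1 : y = algebraMap k[X] (RatFunc k) y.num / algebraMap k[X] (RatFunc k) y.denom :=
    (RatFunc.num_div_denom y).symm
  have hnum : y.num.natDegree ≤ n := by
    by_cases h0 : y.num = 0
    · rw [h0]; simp
    · have h1 : RatFunc.inftyValuation k y = exp ((y.num.natDegree : ℤ) - n) := by
        conv_lhs => rw [e1]
        rw [map_div₀, hpoly _ h0, hpoly _ hd0, exp_sub]
      rw [h1, ← exp_zero, exp_le_exp] at hy
      omega
  have e2 : y - algebraMap k (RatFunc k) c =
      algebraMap k[X] (RatFunc k) (y.num - C c * y.denom) / algebraMap k[X] (RatFunc k) y.denom := by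
    have e3 : algebraMap k (RatFunc k) c = algebraMap k[X] (RatFunc k) (C c) :=
      IsScalarTower.algebraMap_apply k k[X] (RatFunc k) c
    conv_lhs => rw [e1]
    rw [e3, map_sub, map_mul]
    field_simp
  rw [e2]
  by_cases h0 : y.num - C c * y.denom = 0
  · rw [h0, map_zero, zero_div, map_zero]
    exact zero_lt_one
  · rw [map_div₀, hpoly _ h0, hpoly _ hd0, ← exp_sub, ← exp_zero, exp_lt_exp]
    have h1 : (y.num - C c * y.denom).natDegree ≤ n := by
      refine (natDegree_sub_le _ _).trans (max_le hnum ?_)
      exact natDegree_C_mul_le _ _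
    have h2 : (y.num - C c * y.denom).coeff n = 0 := by
      rw [coeff_sub, coeff_C_mul]
      have h3 : y.denom.coeff n = 1 := y.monic_denom
      rw [h3, mul_one, hc, sub_self]
    have h3 : (y.num - C c * y.denom).natDegree ≠ n := by
      intro h4
      rw [← h4] at h2
      exact h0 (leadingCoeff_eq_zero.1 h2)
    have h4 : (y.num - C c * y.denom).natDegree < n := lt_of_le_of_ne h1 h3
    omega

theorem place_inf [Finite k] : letI := algInf k
    IsPlace k (RatFunc.CompletionAtInfty k) 1 := by
  letI := algInf k
  have hpoly : ∀ p : k[X], p ≠ 0 → RatFunc.inftyValuation k (algebraMap k[X] (RatFunc k) p) =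
      exp (p.natDegree : ℤ) := fun p hp => RatFunc.inftyValuation.polynomial k hp
  refine ⟨inf_complete k, ?_, one_pos, fun x hx => ?_⟩
  · refine ⟨algebraMap (RatFunc k) (RatFunc.CompletionAtInfty k) (algebraMap k[X] (RatFunc k) X), ?_, ?_⟩
    · intro h
      have h1 := inf_val k (algebraMap k[X] (RatFunc k) X)
      rw [hpoly _ X_ne_zero] at h1
      rw [h] at h1
      have h2 : vF (RatFunc.CompletionAtInfty k) (0 : (RatFunc.CompletionAtInfty k)) = 0 := map_zero _
      rw [h2] at h1
      exact exp_ne_zero h1.symm
    · have h1 := inf_val k (algebraMap k[X] (RatFunc k) X)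
      rw [hpoly _ X_ne_zero] at h1
      rw [h1]
      intro h
      rw [← exp_zero, exp_inj, natDegree_X] at h
      omega
  · obtain ⟨y, hy⟩ := approx (algebraMap (RatFunc k) (RatFunc.CompletionAtInfty k)) (inf_dense k) x
    have hy1 : RatFunc.inftyValuation k y ≤ 1 := by
      rw [← inf_val]
      have e : algebraMap (RatFunc k) (RatFunc.CompletionAtInfty k) y = (algebraMap (RatFunc k) (RatFunc.CompletionAtInfty k) y - x) + x := by ring
      rw [e]
      exact (Valuation.map_add _ _ _).trans (max_le hy.le hx)
    obtain ⟨c, hc⟩ := inf_const k y hy1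
    have h1 : vF (RatFunc.CompletionAtInfty k) (algebraMap k (RatFunc.CompletionAtInfty k) c - x) < 1 := by
      have e : algebraMap k (RatFunc.CompletionAtInfty k) c - x = -algebraMap (RatFunc k) (RatFunc.CompletionAtInfty k) (y - algebraMap k (RatFunc k) c) +
          (algebraMap (RatFunc k) (RatFunc.CompletionAtInfty k) y - x) := by
        rw [map_sub]
        change algebraMap (RatFunc k) (RatFunc.CompletionAtInfty k) (algebraMap k (RatFunc k) c) - x = _
        ring
      rw [e]
      refine (Valuation.map_add _ _ _).trans_lt (max_lt ?_ hy)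
      rw [Valuation.map_neg]
      change vF (RatFunc.CompletionAtInfty k) _ < 1
      rw [inf_val]
      exact hc
    have hfix : (algebraMap k (RatFunc.CompletionAtInfty k) c) ^ (Nat.card k ^ 1) = algebraMap k (RatFunc.CompletionAtInfty k) c := by
      haveI := Fintype.ofFinite k
      rw [← map_pow, pow_one, Nat.card_eq_fintype_card, FiniteField.pow_card]
    have e : x ^ (Nat.card k ^ 1) - x =
        -((algebraMap k (RatFunc.CompletionAtInfty k) c - x) ^ (Nat.card k ^ 1) - (algebraMap k (RatFunc.CompletionAtInfty k) c - x)) := by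
      rw [frob k (RatFunc.CompletionAtInfty k), hfix]
      ring
    rw [e]
    change (Valued.v (R := (RatFunc.CompletionAtInfty k)) (Γ₀ := WithZero (Multiplicative ℤ))) _ < 1
    rw [Valuation.map_neg]
    refine (Valuation.map_sub _ _ _).trans_lt (max_lt ?_ h1)
    rw [map_pow]
    exact pow_lt_one₀ zero_le h1 (pow_ne_zero _ (Nat.card_pos.ne'))

theorem inf_poly {u : k[X]} (hu : u ≠ 0) : vF (RatFunc.CompletionAtInfty k)
    (algebraMap (RatFunc k) _ (algebraMap k[X] (RatFunc k) u)) = exp (u.natDegree : ℤ) := by
  rw [inf_val]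
  exact RatFunc.inftyValuation.polynomial k hu

end inf

end Pool.Agent.H89.FP
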