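import Pool.Agent.H89.FP.Rd2

/-! The local invariants of the points. -/

set_option autoImplicit false
set_option linter.all false

open Polynomial WithZero Filter Topology Module
open scoped Classical NNReal

namespace Pool.Agent.H89.FP

section pt

variable {k F L : Type} [Field k] [Finite k] [Field F] [Algebra k F]
  [Valued F (WithZero (Multiplicative ℤ))] [Field L] [Algebra F L] [Algebra k L]
  [IsScalarTower k F L] {w : Valuation L ℝ≥0}

/-- the order of an element, with the convention `ord 0 = 0` -/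
noncomputable def ordF (F : Type) [Field F] [Valued F (WithZero (Multiplicative ℤ))] (x : F) : ℤ :=
  -(log (vF F x))

theorem ordF_zero : ordF F 0 = 0 := by
  unfold ordF
  change -(log (Valued.v (0 : F))) = 0
  rw [map_zero, log_zero, neg_zero]

theorem ordF_mul {x y : F} (hx : x ≠ 0) (hy : y ≠ 0) : ordF F (x * y) = ordF F x + ordF F y := by
  unfold ordF
  change -(log (Valued.v (x * y))) = _
  rw [map_mul, log_mul ((Valuation.ne_zero_iff _).2 hx) ((Valuation.ne_zero_iff _).2 hy), neg_add]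

theorem ordF_pow (x : F) (n : ℕ) : ordF F (x ^ n) = n * ordF F x := by
  unfold ordF
  change -(log (Valued.v (x ^ n))) = _
  rw [map_pow, log_pow, nsmul_eq_mul]
  ring

theorem ordF_of_exp {x : F} {n : ℤ} (h : vF F x = exp n) : ordF F x = -n := by
  unfold ordF
  rw [h, log_exp]

theorem aeval_smul_hom {ι : Type} [Fintype ι] {H : MvPolynomial ι k} {d : ℕ}
    (hH : H.IsHomogeneous d) (c : L) (x : ι → L) :
    MvPolynomial.aeval (fun i => c * x i) H = c ^ d * MvPolynomial.aeval x H := by
  rw [MvPolynomial.aeval_def, MvPolynomial.aeval_def, MvPolynomial.eval₂_eq',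
    MvPolynomial.eval₂_eq', Finset.mul_sum]
  refine Finset.sum_congr rfl fun s hs => ?_
  have h1 : ∑ i, s i = d := by
    have h2 := hH (MvPolynomial.mem_support_iff.1 hs)
    rw [← h2]
    simp [Finsupp.weight_apply, Finsupp.sum_fintype]
  have h3 : ∏ i, (c * x i) ^ s i = c ^ d * ∏ i, x i ^ s i := by
    rw [← h1, ← Finset.prod_pow_eq_pow_sum, ← Finset.prod_mul_distrib]
    exact Finset.prod_congr rfl fun i _ => mul_pow _ _ _
  rw [h3]
  ring

/-- the norm of an element of absolute value `hm c ` -/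
theorem v_norm_of_w [FiniteDimensional F L] (hw : IsExt F L w) {x : L} {c : F}
    (h : w x = hm (vF F c)) : vF F (Algebra.norm F x) = vF F c ^ finrank F L := by
  apply hm_mono.injective
  rw [map_pow, ← h, hw.norm]

theorem ord_norm_of_unit [FiniteDimensional F L] (hw : IsExt F L w) {x : L} (h : w x = 1) :
    ordF F (Algebra.norm F x) = 0 := by
  have h1 := v_norm_of_w hw (x := x) (c := 1) (by
    change w x = hm (Valued.v (1 : F))
    rw [map_one, map_one, h])
  have h2 : vF F (1 : F) = 1 := map_one _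
  rw [h2, one_pow] at h1
  unfold ordF
  rw [h1, log_one, neg_zero]

/-- the fields with new constants contribute nothing modulo `ℓ` -/
theorem case_a {δ ℓ : ℕ} [FiniteDimensional F L] (hpl : IsPlace k F δ) (hℓ : ℓ.Prime)
    (hδ : ¬ ℓ ∣ δ) {α : L} (h1 : α ^ (Nat.card k ^ ℓ) = α) (h2 : α ^ Nat.card k ≠ α) (x : L)
    (m : ℕ) : (ℓ : ℤ) ∣ δ * (ordF F (Algebra.norm F x) - m * finrank F L) := by
  obtain ⟨h3, h4⟩ := dvd_ord hpl hℓ hδ h1 h2
  have h5 : (ℓ : ℤ) ∣ ordF F (Algebra.norm F x) := by
    by_cases hx : x = 0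
    · rw [hx, Algebra.norm_zero, ordF_zero]
      exact dvd_zero _
    · obtain ⟨c, hc, hc'⟩ := h4 x hx
      have e : ordF F (Algebra.norm F x) = ordF F (c ^ ℓ) := by
        unfold ordF
        rw [hc']
        change -(log (Valued.v c ^ ℓ)) = -(log (Valued.v (c ^ ℓ)))
        rw [map_pow]
      rw [e, ordF_pow]
      exact Dvd.intro _ rfl
  have h6 : (ℓ : ℤ) ∣ (finrank F L : ℤ) := by exact_mod_cast h3
  exact Dvd.dvd.mul_left (dvd_sub h5 (Dvd.dvd.mul_left h6 _)) _

/-- a primitive multiple of a point -/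
theorem primitive {N : ℕ} (w : Valuation L ℝ≥0) (P : Fin N → L) (hP : P ≠ 0) :
    ∃ (c : L) (x : Fin N → L), c ≠ 0 ∧ (∀ i, P i = c * x i) ∧ (∀ i, w (x i) ≤ 1) ∧
      ∃ i, x i = 1 := by
  have hne : (Finset.univ : Finset (Fin N)).Nonempty := by
    obtain ⟨i, hi⟩ := Function.ne_iff.1 hP
    exact ⟨i, Finset.mem_univ i⟩
  obtain ⟨i₀, -, hmax⟩ := Finset.exists_max_image Finset.univ (fun i => w (P i)) hne
  have h0 : P i₀ ≠ 0 := by
    intro h0
    apply hP
    funext i
    have := hmax i (Finset.mem_univ i)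
    rw [h0, map_zero] at this
    exact (Valuation.zero_iff w).1 (le_antisymm this zero_le)
  refine ⟨P i₀, fun i => (P i₀)⁻¹ * P i, h0, fun i => ?_, fun i => ?_, i₀, ?_⟩
  · rw [← mul_assoc, mul_inv_cancel₀ h0, one_mul]
  · rw [map_mul, map_inv₀]
    calc (w (P i₀))⁻¹ * w (P i) ≤ (w (P i₀))⁻¹ * w (P i₀) :=
          mul_le_mul_right (hmax i (Finset.mem_univ i)) _
      _ = 1 := inv_mul_cancel₀ ((Valuation.ne_zero_iff w).2 h0)
  · exact inv_mul_cancel₀ h0

/-- the local invariants of the points of the hypersurface `A + t B = 0` -/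
theorem loc_hyp {δ ℓ N d : ℕ} [FiniteDimensional F L] (hpl : IsPlace k F δ) (hℓ : ℓ.Prime)
    {A B : MvPolynomial (Fin N) k} (hA : A.IsHomogeneous d) (hB : B.IsHomogeneous d) (hd : ℓ ∣ d)
    (G : Set (MvPolynomial (Fin N) k)) (hG : ∀ H ∈ G, ∃ e, H.IsHomogeneous e)
    (hV : ∀ (E : Type) [Field E] [Algebra k E] [FiniteDimensional k E] (b : Fin N → E), b ≠ 0 →
      (∀ H ∈ G, MvPolynomial.aeval b H = 0) → MvPolynomial.aeval b A = 0 →
      MvPolynomial.aeval b B = 0 → ℓ ∣ finrank k E)
    (t : F) (m : ℕ) (ht : (vF F t ≤ 1 ∧ m = 0) ∨ vF F t = exp (m : ℤ)) (P : Fin N → L)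
    (hP : P ≠ 0) (hPG : ∀ H ∈ G, MvPolynomial.aeval P H = 0)
    (hPX : MvPolynomial.aeval P A + algebraMap F L t * MvPolynomial.aeval P B = 0) :
    (ℓ : ℤ) ∣ δ * (ordF F (Algebra.norm F (MvPolynomial.aeval P B)) - m * finrank F L) := by
  by_cases hδ : ℓ ∣ δ
  · exact Dvd.dvd.mul_right (by exact_mod_cast hδ) _
  by_cases hα : ∃ α : L, α ^ (Nat.card k ^ ℓ) = α ∧ α ^ Nat.card k ≠ α
  · obtain ⟨α, h1, h2⟩ := hα
    exact case_a hpl hℓ hδ h1 h2 _ m
  push Not at hα
  haveI := hpl.complete
  obtain ⟨w, hw⟩ := exists_ext F hpl.nontrivial L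
  obtain ⟨c, x, hc, hPc, hx, i₀, hi₀⟩ := primitive w P hP
  obtain ⟨E, iE, iA, b, hfd, hnd, hred⟩ := reduce hpl hw hℓ hα x hx
  have hb : b ≠ 0 := by
    intro hb
    have h1 := (hred (MvPolynomial.X i₀)).1 (by rw [MvPolynomial.aeval_X, hb]; rfl)
    rw [MvPolynomial.aeval_X, hi₀, map_one] at h1
    exact lt_irrefl _ h1
  have hPe : P = fun i => c * x i := funext hPc
  have hbG : ∀ H ∈ G, MvPolynomial.aeval b H = 0 := by
    intro H hH
    obtain ⟨e, he⟩ := hG H hH
    have h1 := hPG H hH
    rw [hPe, aeval_smul_hom he] at h1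
    have h2 := (mul_eq_zero.1 h1).resolve_left (pow_ne_zero _ hc)
    rw [hred, h2, map_zero]
    exact zero_lt_one
  have hkey : ¬ (w (MvPolynomial.aeval x A) < 1 ∧ w (MvPolynomial.aeval x B) < 1) := by
    rintro ⟨h1, h2⟩
    exact hnd (hV E b hb hbG ((hred A).2 h1) ((hred B).2 h2))
  have hle : ∀ H : MvPolynomial (Fin N) k, w (MvPolynomial.aeval x H) ≤ 1 := by
    intro H
    rw [MvPolynomial.aeval_def, MvPolynomial.eval₂_eq']
    refine Valuation.map_sum_le w fun s _ => ?_
    rw [map_mul, map_prod]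
    refine mul_le_one' (w_const_le w _) (Finset.prod_le_one' fun i _ => ?_)
    rw [map_pow]
    exact pow_le_one' (hx i) _
  have hxX : MvPolynomial.aeval x A + algebraMap F L t * MvPolynomial.aeval x B = 0 := by
    rw [hPe, aeval_smul_hom hA, aeval_smul_hom hB] at hPX
    have h1 : c ^ d * (MvPolynomial.aeval x A + algebraMap F L t * MvPolynomial.aeval x B) = 0 := by
      linear_combination hPX
    exact (mul_eq_zero.1 h1).resolve_left (pow_ne_zero _ hc)
  -- the value
  have hmain : MvPolynomial.aeval x B ≠ 0 ∧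
      ordF F (Algebra.norm F (MvPolynomial.aeval x B)) = m * finrank F L := by
    rcases ht with ⟨ht, hm⟩ | ht
    · have h1 : w (MvPolynomial.aeval x B) = 1 := by
        refine le_antisymm (hle B) (not_lt.1 fun h1 => hkey ⟨?_, h1⟩)
        have e : MvPolynomial.aeval x A = -(algebraMap F L t * MvPolynomial.aeval x B) :=
          eq_neg_of_add_eq_zero_left hxX
        rw [e, Valuation.map_neg, map_mul]
        calc w (algebraMap F L t) * w (MvPolynomial.aeval x B)
            ≤ 1 * w (MvPolynomial.aeval x B) := mul_le_mul_left (w_le_of_v hw ht) _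
          _ < 1 := by rwa [one_mul]
      refine ⟨?_, ?_⟩
      · intro h0; rw [h0, map_zero] at h1; exact zero_ne_one h1
      · rw [ord_norm_of_unit hw h1, hm]; simp
    · have ht0 : t ≠ 0 := by
        rintro rfl
        have : vF F (0 : F) = 0 := map_zero _
        rw [this] at ht
        exact exp_ne_zero ht.symm
      have htL : algebraMap F L t ≠ 0 := by rwa [Ne, map_eq_zero]
      have e : MvPolynomial.aeval x B = algebraMap F L (-t⁻¹) * MvPolynomial.aeval x A := by
        rw [map_neg, map_inv₀]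
        field_simp
        linear_combination hxX
      have hwt : w (algebraMap F L (-t⁻¹)) ≤ 1 := by
        refine w_le_of_v hw ?_
        change Valued.v (-t⁻¹) ≤ 1
        rw [Valuation.map_neg, map_inv₀]
        change (vF F t)⁻¹ ≤ 1
        rw [ht, ← exp_neg, ← exp_zero, exp_le_exp]
        omega
      have h1 : w (MvPolynomial.aeval x A) = 1 := by
        refine le_antisymm (hle A) (not_lt.1 fun h1 => hkey ⟨h1, ?_⟩)
        rw [e, map_mul]
        calc w (algebraMap F L (-t⁻¹)) * w (MvPolynomial.aeval x A)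
            ≤ 1 * w (MvPolynomial.aeval x A) := mul_le_mul_left hwt _
          _ < 1 := by rwa [one_mul]
      have hA0 : MvPolynomial.aeval x A ≠ 0 := by
        intro h0; rw [h0, map_zero] at h1; exact zero_ne_one h1
      refine ⟨?_, ?_⟩
      · rw [e]
        refine mul_ne_zero ?_ hA0
        rw [Ne, map_eq_zero, neg_eq_zero, inv_eq_zero]
        exact ht0
      · rw [e, map_mul, ordF_mul, ord_norm_of_unit hw h1, add_zero, Algebra.norm_algebraMap,
          ordF_pow]
        · have h3 : vF F (-t⁻¹) = exp (-(m : ℤ)) := by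
            change Valued.v (-t⁻¹) = _
            rw [Valuation.map_neg, map_inv₀]
            change (vF F t)⁻¹ = _
            rw [ht, exp_neg]
          rw [ordF_of_exp h3]
          ring
        · rw [Algebra.norm_algebraMap]
          exact pow_ne_zero _ (neg_ne_zero.2 (inv_ne_zero ht0))
        · exact Algebra.norm_ne_zero_iff.2 hA0
  obtain ⟨hB0, hord⟩ := hmain
  have h1 : ordF F (Algebra.norm F (MvPolynomial.aeval P B)) =
      d * ordF F (Algebra.norm F c) + m * finrank F L := by
    rw [hPe, aeval_smul_hom hB, map_mul, ordF_mul, hord, map_pow, ordF_pow]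
    · exact Algebra.norm_ne_zero_iff.2 (pow_ne_zero _ hc)
    · exact Algebra.norm_ne_zero_iff.2 hB0
  rw [h1, add_sub_cancel_right]
  exact Dvd.dvd.mul_left (Dvd.dvd.mul_right (by exact_mod_cast hd) _) _

end pt

end Pool.Agent.H89.FP
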