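import Pool.Agent.H89.FP.Red

/-! Reduction of points. -/

set_option autoImplicit false
set_option linter.all false

open Polynomial WithZero Filter Topology Module
open scoped Classical NNReal

namespace Pool.Agent.H89.FP

section red

variable {k F L : Type} [Field k] [Finite k] [Field F] [Algebra k F]
  [Valued F (WithZero (Multiplicative ℤ))] [Field L] [Algebra F L] [Algebra k L]
  [IsScalarTower k F L] {w : Valuation L ℝ≥0}

/-- constants in the valuation ring -/
noncomputable def kO (k : Type) [Field k] [Finite k] {L : Type} [Field L] [Algebra k L]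
    (w : Valuation L ℝ≥0) : k →+* w.valuationSubring where
  toFun c := ⟨algebraMap k L c, w_const_le w c⟩
  map_one' := Subtype.ext (map_one _)
  map_mul' x y := Subtype.ext (map_mul _ _ _)
  map_zero' := Subtype.ext (map_zero _)
  map_add' x y := Subtype.ext (map_add _ _ _)

theorem reduce {δ ℓ : ℕ} [FiniteDimensional F L] (hpl : IsPlace k F δ) (hw : IsExt F L w)
    (hℓ : ℓ.Prime) (hno : ∀ α : L, α ^ (Nat.card k ^ ℓ) = α → α ^ Nat.card k = α) {ι : Type}
    [Finite ι] (a : ι → L) (ha : ∀ i, w (a i) ≤ 1) :
    ∃ (E : Type) (_ : Field E) (_ : Algebra k E) (b : ι → E), FiniteDimensional k E ∧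
      ¬ ℓ ∣ finrank k E ∧
      ∀ H : MvPolynomial ι k, MvPolynomial.aeval b H = 0 ↔ w (MvPolynomial.aeval a H) < 1 := by
  let O := w.valuationSubring
  let κ := IsLocalRing.ResidueField O
  let ρ : O →+* κ := IsLocalRing.residue O
  have hρ : ∀ x : O, ρ x = 0 ↔ w (x : L) < 1 := by
    intro x
    rw [IsLocalRing.residue_eq_zero_iff, Valuation.mem_maximalIdeal_iff]
  have hρs : Function.Surjective ρ := IsLocalRing.residue_surjective
  letI : Algebra k κ := (ρ.comp (kO k w)).toAlgebra
  have halg : ∀ c : k, algebraMap k κ c = ρ (kO k w c) := fun c => rfl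
  -- integrality
  have hQ : 1 < Nat.card k ^ δ := Nat.one_lt_pow hpl.pos.ne' (card_gt k)
  have hcint : ∀ c : F, ∀ hc : vF F c ≤ 1, IsIntegral k (ρ ⟨algebraMap F L c, w_le_of_v hw hc⟩) := by
    intro c hc
    refine ⟨X ^ (Nat.card k ^ δ) - X, ?_, ?_⟩
    · exact monic_X_pow_sub (by rw [degree_X]; exact_mod_cast hQ)
    · rw [eval₂_sub, eval₂_pow, eval₂_X, ← map_pow, ← map_sub, hρ]
      change w ((algebraMap F L c) ^ (Nat.card k ^ δ) - algebraMap F L c) < 1
      rw [← map_pow, ← map_sub]
      exact w_lt_of_v hw (hpl.res c hc)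
  have hint : ∀ x : O, IsIntegral k (ρ x) := by
    intro x
    set P := minpoly F (x : L) with hP
    have hPm : P.Monic := minpoly.monic (Algebra.IsIntegral.isIntegral _)
    have hPc : ∀ i, vF F (P.coeff i) ≤ 1 := hw.int x x.2
    let c : ℕ → O := fun i => ⟨algebraMap F L (P.coeff i), w_le_of_v hw (hPc i)⟩
    let PO : O[X] := ∑ i ∈ Finset.range (P.natDegree + 1), C (c i) * X ^ i
    have hco : ∀ i, PO.coeff i = c i := by
      intro i
      simp only [PO]
      rw [finsetSum_coeff]
      by_cases hi : i ∈ Finset.range (P.natDegree + 1)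
      · rw [Finset.sum_eq_single i]
        · rw [coeff_C_mul, coeff_X_pow, if_pos rfl, mul_one]
        · intro j _ hj
          rw [coeff_C_mul, coeff_X_pow, if_neg hj.symm, mul_zero]
        · intro h; exact absurd hi h
      · rw [Finset.sum_eq_zero]
        · apply Subtype.ext
          change (0 : L) = algebraMap F L (P.coeff i)
          rw [Finset.mem_range] at hi
          rw [coeff_eq_zero_of_natDegree_lt (by omega), map_zero]
        · intro j hj
          rw [coeff_C_mul, coeff_X_pow, if_neg (by rintro rfl; exact hi hj), mul_zero]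
    have hmap : PO.map (algebraMap O L) = P.map (algebraMap F L) := by
      ext i
      rw [coeff_map, coeff_map, hco]
      rfl
    have hinj : Function.Injective (algebraMap O L) := Subtype.val_injective
    have hPOm : PO.Monic := by
      have h1 : (PO.map (algebraMap O L)).Monic := hmap ▸ hPm.map _
      exact monic_of_injective hinj h1
    have hev : PO.eval x = 0 := by
      apply hinj
      rw [map_zero, ← eval₂_at_apply, ← eval_map, hmap, eval_map]
      exact minpoly.aeval F (x : L)
    -- over the integral closure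
    let A := integralClosure k κ
    have hl : PO.map ρ ∈ lifts (algebraMap A κ) := by
      rw [lifts_iff_coeff_lifts]
      intro i
      rw [coeff_map, hco]
      exact ⟨⟨ρ (c i), hcint _ (hPc i)⟩, rfl⟩
    obtain ⟨Q, hQ1, hQ2, hQ3⟩ := lifts_and_natDegree_eq_and_monic hl (hPOm.map ρ)
    have hxA : IsIntegral A (ρ x) := by
      refine ⟨Q, hQ3, ?_⟩
      rw [← eval_map, hQ1, eval_map, eval₂_at_apply, hev, map_zero]
    exact isIntegral_trans (A := A) _ hxA
  -- the field
  let aO : ι → O := fun i => ⟨a i, ha i⟩
  let S : Set κ := Set.range fun i => ρ (aO i)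
  let E := IntermediateField.adjoin k S
  haveI : Finite S := Set.finite_range _
  haveI : FiniteDimensional k E := IntermediateField.finiteDimensional_adjoin (by
    rintro _ ⟨i, rfl⟩
    exact hint _)
  let b : ι → E := fun i => ⟨ρ (aO i), IntermediateField.subset_adjoin k S ⟨i, rfl⟩⟩
  refine ⟨E, inferInstance, inferInstance, b, inferInstance, ?_, ?_⟩
  · intro hdvd
    obtain ⟨e, he1, he2⟩ := exists_gen (k := k) hℓ hdvd
    obtain ⟨x, hx⟩ := hρs (e : κ)
    have h1 : w ((x : L) ^ (Nat.card k ^ ℓ) - x) < 1 := by
      have h2 : ρ (x ^ (Nat.card k ^ ℓ) - x) = 0 := by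
        rw [map_sub, map_pow, hx, sub_eq_zero]
        exact congrArg (fun z : E => (z : κ)) he1
      exact (hρ _).1 h2
    obtain ⟨α, hα1, hα2⟩ := teich (k := k) hw ℓ (x : L) h1
    have hα3 := hno α hα1
    have hα4 : w α ≤ 1 := w_tei_le hℓ.ne_zero hα1
    have h3 : ρ ⟨α, hα4⟩ = ρ x := by
      rw [← sub_eq_zero, ← map_sub, hρ]
      exact hα2
    apply he2
    apply Subtype.ext
    change (e : κ) ^ Nat.card k = e
    rw [← hx, ← h3, ← map_pow]
    congr 1
    exact Subtype.ext hα3
  · intro H
    let Φ : MvPolynomial ι k →+* O := MvPolynomial.eval₂Hom (kO k w) aO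
    have e1 : ∀ H, ((Φ H : O) : L) = MvPolynomial.aeval a H := by
      intro H
      have : (algebraMap O L).comp Φ = (MvPolynomial.aeval a : MvPolynomial ι k →ₐ[k] L).toRingHom := by
        apply MvPolynomial.ringHom_ext
        · intro c
          change ((Φ (MvPolynomial.C c) : O) : L) = MvPolynomial.aeval a (MvPolynomial.C c)
          rw [MvPolynomial.aeval_C]
          change ((MvPolynomial.eval₂Hom (kO k w) aO (MvPolynomial.C c) : O) : L) = _
          rw [MvPolynomial.eval₂Hom_C]
          rfl
        · intro i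
          change ((Φ (MvPolynomial.X i) : O) : L) = MvPolynomial.aeval a (MvPolynomial.X i)
          rw [MvPolynomial.aeval_X]
          change ((MvPolynomial.eval₂Hom (kO k w) aO (MvPolynomial.X i) : O) : L) = _
          rw [MvPolynomial.eval₂Hom_X']
      exact congrArg (fun f : MvPolynomial ι k →+* L => f H) this
    have e2 : ∀ H, ((MvPolynomial.aeval b H : E) : κ) = ρ (Φ H) := by
      intro H
      have : (algebraMap E κ).comp (MvPolynomial.aeval b : MvPolynomial ι k →ₐ[k] E).toRingHom =
          ρ.comp Φ := by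
        apply MvPolynomial.ringHom_ext
        · intro c
          change ((MvPolynomial.aeval b (MvPolynomial.C c) : E) : κ) = ρ (Φ (MvPolynomial.C c))
          rw [MvPolynomial.aeval_C]
          change _ = ρ (MvPolynomial.eval₂Hom (kO k w) aO (MvPolynomial.C c))
          rw [MvPolynomial.eval₂Hom_C]
          rfl
        · intro i
          change ((MvPolynomial.aeval b (MvPolynomial.X i) : E) : κ) = ρ (Φ (MvPolynomial.X i))
          rw [MvPolynomial.aeval_X]
          change _ = ρ (MvPolynomial.eval₂Hom (kO k w) aO (MvPolynomial.X i))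
          rw [MvPolynomial.eval₂Hom_X']
      exact congrArg (fun f : MvPolynomial ι k →+* κ => f H) this
    rw [← e1, ← hρ, ← e2]
    constructor
    · intro h; rw [h]; rfl
    · intro h; exact Subtype.ext h

end red

end Pool.Agent.H89.FP
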