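import Pool.Agent.H89.FP.Tei

/-! Unramified constants in finite extensions of the completions, and reduction. -/

set_option autoImplicit false
set_option linter.all false

open Polynomial WithZero Filter Topology Module
open scoped Classical NNReal

namespace Pool.Agent.H89.FP

section red

variable {k F L : Type} [Field k] [Finite k] [Field F] [Algebra k F]
  [Valued F (WithZero (Multiplicative ℤ))] [Field L] [Algebra F L] [Algebra k L]
  [IsScalarTower k F L] {w : Valuation L ℝ≥0}

theorem w_le_of_v (hw : IsExt F L w) {c : F} (hc : vF F c ≤ 1) : w (algebraMap F L c) ≤ 1 := by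
  rw [hw.ext, ← map_one hm]
  exact hm_mono.monotone hc

theorem w_lt_of_v (hw : IsExt F L w) {c : F} (hc : vF F c < 1) : w (algebraMap F L c) < 1 := by
  rw [hw.ext, ← map_one hm]
  exact hm_mono hc

/-- the roots of unity -/
theorem w_tei {α : L} {m : ℕ} (hm : m ≠ 0) (h : α ^ (Nat.card k ^ m) = α) (h0 : α ≠ 0) :
    w α = 1 := by
  have hQ : 2 ≤ Nat.card k ^ m := by
    calc 2 ≤ Nat.card k := card_gt k
      _ = Nat.card k ^ 1 := (pow_one _).symm
      _ ≤ Nat.card k ^ m := Nat.pow_le_pow_right (Nat.card_pos) (by omega)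
  have h1 : α ^ (Nat.card k ^ m - 1) = 1 := by
    have e : Nat.card k ^ m = (Nat.card k ^ m - 1) + 1 := by omega
    rw [e, pow_succ] at h
    exact (mul_eq_right₀ h0).1 h
  have h2 : w α ^ (Nat.card k ^ m - 1) = 1 := by
    rw [← map_pow, h1, map_one]
  exact (pow_eq_one_iff_of_nonneg zero_le (by omega)).1 h2

theorem w_tei_le {α : L} {m : ℕ} (hm : m ≠ 0) (h : α ^ (Nat.card k ^ m) = α) : w α ≤ 1 := by
  by_cases h0 : α = 0
  · rw [h0, map_zero]; exact zero_le_one
  · rw [w_tei hm h h0]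

/-- the Frobenius map -/
noncomputable def fr (k L : Type) [Field k] [Finite k] [Field L] [Algebra k L] (m : ℕ) : L →+* L where
  toFun x := x ^ (Nat.card k ^ m)
  map_one' := one_pow _
  map_mul' x y := mul_pow x y _
  map_zero' := zero_pow (pow_ne_zero _ (Nat.card_pos.ne'))
  map_add' x y := frob_add k L m x y

theorem aeval_frob {δ : ℕ} (hpl : IsPlace k F δ) (hw : IsExt F L w) (P : F[X])
    (hc : ∀ i, vF F (P.coeff i) ≤ 1) (β : L) (hβ : w β ≤ 1) :
    w (aeval (β ^ (Nat.card k ^ δ)) P - (aeval β P) ^ (Nat.card k ^ δ)) < 1 := by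
  have h1 : (aeval β P) ^ (Nat.card k ^ δ) = ∑ i ∈ Finset.range (P.natDegree + 1),
      algebraMap F L (P.coeff i ^ (Nat.card k ^ δ)) * (β ^ (Nat.card k ^ δ)) ^ i := by
    change fr k L δ (aeval β P) = _
    rw [aeval_eq_sum_range, map_sum]
    refine Finset.sum_congr rfl fun i _ => ?_
    rw [Algebra.smul_def, map_mul, map_pow]
    change (algebraMap F L (P.coeff i)) ^ (Nat.card k ^ δ) * (β ^ (Nat.card k ^ δ)) ^ i = _
    rw [map_pow]
  rw [h1, aeval_eq_sum_range, ← Finset.sum_sub_distrib]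
  refine Valuation.map_sum_lt w one_ne_zero fun i _ => ?_
  rw [Algebra.smul_def, ← sub_mul, ← map_sub, map_mul]
  have h2 : w (algebraMap F L (P.coeff i - P.coeff i ^ (Nat.card k ^ δ))) < 1 := by
    refine w_lt_of_v hw ?_
    have h5 := hpl.res _ (hc i)
    change Valued.v (P.coeff i - P.coeff i ^ (Nat.card k ^ δ)) < 1
    rw [Valuation.map_sub_swap]
    exact h5
  have h3 : w ((β ^ (Nat.card k ^ δ)) ^ i) ≤ 1 := by
    rw [map_pow, map_pow]
    exact pow_le_one' (pow_le_one' hβ _) _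
  calc _ ≤ w (algebraMap F L (P.coeff i - P.coeff i ^ (Nat.card k ^ δ))) * 1 :=
        mul_le_mul_right h3 _
    _ < 1 := by rwa [mul_one]

theorem aeval_le (hw : IsExt F L w) (P : F[X]) (hc : ∀ i, vF F (P.coeff i) ≤ 1) (β : L)
    (hβ : w β ≤ 1) : w (aeval β P) ≤ 1 := by
  rw [aeval_eq_sum_range]
  refine Valuation.map_sum_le w fun i _ => ?_
  rw [Algebra.smul_def, map_mul, map_pow]
  exact mul_le_one' (w_le_of_v hw (hc i)) (pow_le_one' hβ _)

/-- the conjugates of the generator are distinct -/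
theorem conj_ne {δ ℓ : ℕ} (hℓ : ℓ.Prime) (hδ : ¬ ℓ ∣ δ) {α : L}
    (h1 : α ^ (Nat.card k ^ ℓ) = α) (h2 : α ^ Nat.card k ≠ α) {i j : ℕ} (hij : i < j)
    (hj : j < ℓ) : α ^ ((Nat.card k ^ δ) ^ i) ≠ α ^ ((Nat.card k ^ δ) ^ j) := by
  intro h
  set q := Nat.card k with hq
  let φ : L → L := fun x => x ^ q
  have hφ : ∀ (n : ℕ) (x : L), φ^[n] x = x ^ (q ^ n) := by
    intro n
    induction n with
    | zero => intro x; simp
    | succ n ih =>
      intro x
      rw [Function.iterate_succ_apply, ih]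
      change (x ^ q) ^ (q ^ n) = _
      rw [← pow_mul, pow_succ']
  have hp1 : Function.IsPeriodicPt φ ℓ α := by
    change φ^[ℓ] α = α
    rw [hφ, h1]
  have hp2 : Function.IsPeriodicPt φ (δ * (j - i)) α := by
    change φ^[δ * (j - i)] α = α
    rw [hφ]
    have e1 : (q ^ δ) ^ j = q ^ (δ * (j - i)) * q ^ (δ * i) := by
      rw [← pow_mul, ← pow_add]
      congr 1
      rw [← Nat.mul_add]
      congr 1
      omega
    have e2 : (q ^ δ) ^ i = q ^ (δ * i) := (pow_mul _ _ _).symm
    rw [e1, pow_mul, e2] at h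
    exact ((fr k L (δ * i)).injective h).symm
  have hg := hp1.gcd hp2
  have hco : Nat.gcd ℓ (δ * (j - i)) = 1 := by
    rw [← Nat.coprime_iff_gcd_eq_one, hℓ.coprime_iff_not_dvd, hℓ.dvd_mul]
    rintro (h3 | h3)
    · exact hδ h3
    · exact absurd (Nat.le_of_dvd (by omega) h3) (by omega)
  rw [hco] at hg
  apply h2
  have h3 : φ^[1] α = α := hg
  rw [hφ, pow_one] at h3
  exact h3

/-- the powers of `α` are orthogonal -/
theorem indep {δ ℓ : ℕ} (hpl : IsPlace k F δ) (hw : IsExt F L w) (hℓ : ℓ.Prime) (hδ : ¬ ℓ ∣ δ)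
    {α : L} (h1 : α ^ (Nat.card k ^ ℓ) = α) (h2 : α ^ Nat.card k ≠ α) (P : F[X])
    (hd : P.natDegree < ℓ) (hc : ∀ i, vF F (P.coeff i) ≤ 1) (j : ℕ) (hj : vF F (P.coeff j) = 1) :
    w (aeval α P) = 1 := by
  have hα : w α ≤ 1 := w_tei_le hℓ.ne_zero h1
  refine le_antisymm (aeval_le hw P hc α hα) (not_lt.1 fun hlt => ?_)
  -- the conjugates
  set N : ℕ := Nat.card k ^ δ with hN
  have hαj : ∀ i, w (α ^ (N ^ i)) ≤ 1 := fun i => by
    rw [map_pow]; exact pow_le_one' hα _
  have hall : ∀ i, w (aeval (α ^ (N ^ i)) P) < 1 := by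
    intro i
    induction i with
    | zero => simpa using hlt
    | succ i ih =>
      have h3 := aeval_frob hpl hw P hc (α ^ (N ^ i)) (hαj i)
      rw [← pow_mul, ← hN, ← pow_succ] at h3
      have e : aeval (α ^ (N ^ (i + 1))) P = (aeval (α ^ (N ^ (i + 1))) P -
          (aeval (α ^ (N ^ i)) P) ^ N) + (aeval (α ^ (N ^ i)) P) ^ N := by ring
      rw [e]
      refine (w.map_add _ _).trans_lt (max_lt h3 ?_)
      rw [map_pow]
      exact pow_lt_one₀ zero_le ih (pow_ne_zero _ (Nat.card_pos.ne'))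
  -- reduction
  let O := w.valuationSubring
  let c : ℕ → O := fun i => ⟨algebraMap F L (P.coeff i), w_le_of_v hw (hc i)⟩
  let PO : O[X] := ∑ i ∈ Finset.range (P.natDegree + 1), C (c i) * X ^ i
  let res : O →+* IsLocalRing.ResidueField O := IsLocalRing.residue O
  have hres : ∀ x : O, res x = 0 ↔ w (x : L) < 1 := by
    intro x
    rw [IsLocalRing.residue_eq_zero_iff, Valuation.mem_maximalIdeal_iff]
  let β : Fin ℓ → O := fun i => ⟨α ^ (N ^ (i : ℕ)), hαj i⟩
  have hev : ∀ i, ((PO.eval (β i) : O) : L) = aeval (α ^ (N ^ (i : ℕ))) P := by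
    intro i
    rw [aeval_eq_sum_range, eval_finset_sum]
    rw [AddSubmonoidClass.coe_finset_sum]
    refine Finset.sum_congr rfl fun j _ => ?_
    rw [eval_mul, eval_C, eval_pow, eval_X, Algebra.smul_def]
    rfl
  have hz : PO.map res = 0 := by
    refine eq_zero_of_natDegree_lt_card_of_eval_eq_zero (PO.map res) (f := fun i => res (β i))
      ?_ ?_ ?_
    · intro i i' hii
      by_contra hne
      have h3 : res (β i - β i') = 0 := by
        rw [map_sub, sub_eq_zero]; exact hii
      rw [hres] at h3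
      have h4 : w (α ^ (N ^ (i : ℕ)) - α ^ (N ^ (i' : ℕ))) < 1 := h3
      have h5 : α ^ (N ^ (i : ℕ)) - α ^ (N ^ (i' : ℕ)) ≠ 0 := by
        rw [sub_ne_zero]
        rcases lt_or_gt_of_ne (fun e => hne (Fin.ext e) : (i : ℕ) ≠ i') with h | h
        · exact conj_ne hℓ hδ h1 h2 h i'.2
        · exact (conj_ne hℓ hδ h1 h2 h i.2).symm
      have h6 : (α ^ (N ^ (i : ℕ)) - α ^ (N ^ (i' : ℕ))) ^ (Nat.card k ^ ℓ) =
          α ^ (N ^ (i : ℕ)) - α ^ (N ^ (i' : ℕ)) := by
        have e : ∀ m : ℕ, (α ^ m) ^ (Nat.card k ^ ℓ) = α ^ m := fun m => by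
          rw [← pow_mul α, mul_comm m, pow_mul α, h1]
        rw [frob k L ℓ, e, e]
      rw [w_tei hℓ.ne_zero h6 h5] at h4
      exact lt_irrefl _ h4
    · intro i
      rw [eval_map, eval₂_hom, hres, hev]
      exact hall i
    · rw [Fintype.card_fin]
      refine (natDegree_map_le).trans_lt (lt_of_le_of_lt ?_ hd)
      refine natDegree_sum_le_of_forall_le _ _ fun i hi => ?_
      refine (natDegree_C_mul_X_pow_le _ _).trans ?_
      rw [Finset.mem_range] at hi
      omega
  have h7 : j ≤ P.natDegree := by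
    by_contra hcon
    rw [coeff_eq_zero_of_natDegree_lt (by omega)] at hj
    simp at hj
  have h8 : (PO.map res).coeff j = res (c j) := by
    rw [coeff_map]
    congr 1
    simp only [PO]
    rw [finsetSum_coeff, Finset.sum_eq_single j]
    · rw [coeff_C_mul, coeff_X_pow, if_pos rfl, mul_one]
    · intro i _ hi
      rw [coeff_C_mul, coeff_X_pow, if_neg hi.symm, mul_zero]
    · intro h; exact absurd (Finset.mem_range.2 (by omega)) h
  rw [hz, coeff_zero] at h8
  have h9 := (hres (c j)).1 h8.symm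
  change w (algebraMap F L (P.coeff j)) < 1 at h9
  rw [hw.ext, hj, map_one] at h9
  exact lt_irrefl _ h9

/-- the value of a polynomial at `α` -/
theorem aeval_val {δ ℓ : ℕ} (hpl : IsPlace k F δ) (hw : IsExt F L w) (hℓ : ℓ.Prime)
    (hδ : ¬ ℓ ∣ δ) {α : L} (h1 : α ^ (Nat.card k ^ ℓ) = α) (h2 : α ^ Nat.card k ≠ α) (P : F[X])
    (hd : P.natDegree < ℓ) (hP : P ≠ 0) : ∃ c : F, c ≠ 0 ∧ w (aeval α P) = hm (vF F c) := by
  obtain ⟨i₀, hi₀, hmax⟩ := Finset.exists_max_image P.support (fun i => vF F (P.coeff i))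
    (support_nonempty.2 hP)
  set c : F := P.coeff i₀ with hc
  have hc0 : c ≠ 0 := mem_support_iff.1 hi₀
  have hvc : vF F c ≠ 0 := (Valuation.ne_zero_iff _).2 hc0
  refine ⟨c, hc0, ?_⟩
  have h3 : w (aeval α (C c⁻¹ * P)) = 1 := by
    refine indep hpl hw hℓ hδ h1 h2 (C c⁻¹ * P) ((natDegree_C_mul_le _ _).trans_lt hd) ?_ i₀ ?_
    · intro i
      rw [coeff_C_mul]
      change Valued.v (c⁻¹ * P.coeff i) ≤ 1
      rw [map_mul, map_inv₀]
      by_cases hi : i ∈ P.support
      · have := hmax i hi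
        calc (Valued.v c)⁻¹ * Valued.v (P.coeff i) ≤ (Valued.v c)⁻¹ * Valued.v c :=
              mul_le_mul_right this _
          _ = 1 := inv_mul_cancel₀ hvc
      · rw [notMem_support_iff.1 hi, map_zero, mul_zero]
        exact zero_le_one
    · rw [coeff_C_mul, ← hc, inv_mul_cancel₀ hc0]
      exact map_one _
  rw [map_mul, aeval_C, map_mul, hw.ext] at h3
  have h4 : hm (vF F c⁻¹) * hm (vF F c) = 1 := by
    rw [← map_mul]
    have : vF F c⁻¹ * vF F c = 1 := by
      change Valued.v c⁻¹ * Valued.v c = 1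
      rw [← map_mul, inv_mul_cancel₀ hc0, map_one]
    rw [this, map_one]
  have h5 : hm (vF F c⁻¹) ≠ 0 := left_ne_zero_of_mul_eq_one h4
  exact mul_left_cancel₀ h5 (h3.trans h4.symm)

/-- the degree of `α` over `k` is at most `ℓ` -/
theorem deg_le {ℓ : ℕ} (hℓ : ℓ ≠ 0) {α : L} (h1 : α ^ (Nat.card k ^ ℓ) = α) :
    IsIntegral k α ∧ (minpoly k α).natDegree ≤ ℓ := by
  have hQ : 1 < Nat.card k ^ ℓ := Nat.one_lt_pow hℓ (card_gt k)
  have hint : IsIntegral k α := by
    refine ⟨X ^ (Nat.card k ^ ℓ) - X, ?_, ?_⟩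
    · exact monic_X_pow_sub (by rw [degree_X]; exact_mod_cast hQ)
    · rw [eval₂_sub, eval₂_pow, eval₂_X, h1, sub_self]
  refine ⟨hint, ?_⟩
  haveI : FiniteDimensional k (IntermediateField.adjoin k {α}) :=
    IntermediateField.adjoin.finiteDimensional hint
  haveI : Finite (IntermediateField.adjoin k {α}) := Module.finite_of_finite k
  rw [← IntermediateField.adjoin.finrank hint]
  have h3 : Nat.card (IntermediateField.adjoin k {α}) =
      Nat.card k ^ finrank k (IntermediateField.adjoin k {α}) :=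
    Module.natCard_eq_pow_finrank (K := k)
  have h4 : Nat.card (IntermediateField.adjoin k {α}) ≤ Nat.card k ^ ℓ := by
    set p : L[X] := X ^ (Nat.card k ^ ℓ) - X with hp
    have hp0 : p ≠ 0 := (monic_X_pow_sub (by rw [degree_X]; exact_mod_cast hQ)).ne_zero
    have hfix : ∀ x ∈ IntermediateField.adjoin k {α}, x ^ (Nat.card k ^ ℓ) = x := by
      intro x hx
      induction hx using IntermediateField.adjoin_induction with
      | mem x hx =>
        rw [Set.mem_singleton_iff.1 hx, h1]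
      | algebraMap c =>
        rw [← map_pow]
        congr 1
        haveI := Fintype.ofFinite k
        rw [Nat.card_eq_fintype_card]
        exact FiniteField.pow_card_pow ℓ c
      | add x y _ _ hx hy => rw [frob_add k L, hx, hy]
      | inv x _ hx => rw [inv_pow, hx]
      | mul x y _ _ hx hy => rw [mul_pow, hx, hy]
    let ι : IntermediateField.adjoin k {α} → (p.roots.toFinset : Set L) := fun x =>
      ⟨x, by
        rw [Finset.mem_coe, Multiset.mem_toFinset, mem_roots hp0, IsRoot.def, hp, eval_sub,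
          eval_pow, eval_X, hfix _ x.2, sub_self]⟩
    have hι : Function.Injective ι := fun x y hxy =>
      Subtype.ext (congrArg (fun z : (p.roots.toFinset : Set L) => (z : L)) hxy)
    calc Nat.card (IntermediateField.adjoin k {α}) ≤ Nat.card (p.roots.toFinset : Set L) :=
          Nat.card_le_card_of_injective ι hι
      _ = p.roots.toFinset.card := by rw [Nat.card_coe_set_eq, Set.ncard_coe_finset]
      _ ≤ Multiset.card p.roots := Multiset.toFinset_card_le _
      _ ≤ p.natDegree := card_roots' p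
      _ = Nat.card k ^ ℓ := by
          rw [hp]
          exact FiniteField.X_pow_card_sub_X_natDegree_eq L hQ
  rw [h3] at h4
  exact (Nat.pow_le_pow_iff_right (card_gt k)).1 h4

/-- norms from an extension with unramified constants -/
theorem dvd_ord {δ ℓ : ℕ} [FiniteDimensional F L] (hpl : IsPlace k F δ) (hℓ : ℓ.Prime)
    (hδ : ¬ ℓ ∣ δ) {α : L} (h1 : α ^ (Nat.card k ^ ℓ) = α) (h2 : α ^ Nat.card k ≠ α) :
    ℓ ∣ finrank F L ∧ ∀ x : L, x ≠ 0 →
      ∃ c : F, c ≠ 0 ∧ vF F (Algebra.norm F x) = vF F c ^ ℓ := by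
  haveI := hpl.complete
  set L' := IntermediateField.adjoin F {α} with hL'
  set α' : L' := IntermediateField.AdjoinSimple.gen F α with hα'
  obtain ⟨w', hw'⟩ := exists_ext F hpl.nontrivial L'
  have h1' : α' ^ (Nat.card k ^ ℓ) = α' := Subtype.ext (by
    change α ^ (Nat.card k ^ ℓ) = α; exact h1)
  have h2' : α' ^ Nat.card k ≠ α' := fun h => h2 (by
    have := congrArg (fun z : L' => (z : L)) h
    exact this)
  have hFi : IsIntegral F α := Algebra.IsIntegral.isIntegral α
  let pb : PowerBasis F L' := IntermediateField.adjoin.powerBasis hFi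
  have hgen : pb.gen = α' := IntermediateField.adjoin.powerBasis_gen hFi
  have hmp : minpoly F α' = minpoly F α := IntermediateField.minpoly_gen F α
  have hdim : pb.dim = (minpoly F α).natDegree := by
    rw [← pb.natDegree_minpoly, hgen, hmp]
  have hle : (minpoly F α).natDegree ≤ ℓ := by
    obtain ⟨hki, hkd⟩ := deg_le (k := k) hℓ.ne_zero h1
    have h3 : minpoly F α ∣ (minpoly k α).map (algebraMap k F) :=
      minpoly.dvd_map_of_isScalarTower k F α
    refine (natDegree_le_of_dvd h3 ((minpoly.monic hki).map _).ne_zero).trans ?_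
    rwa [(minpoly.monic hki).natDegree_map]
  have hge : ℓ ≤ (minpoly F α).natDegree := by
    by_contra hcon
    push Not at hcon
    obtain ⟨c, hc, hc'⟩ := aeval_val hpl hw' hℓ hδ h1' h2' (minpoly F α) hcon
      (minpoly.ne_zero hFi)
    rw [← hmp, minpoly.aeval, map_zero] at hc'
    have h3 : hm (vF F c) ≠ 0 := by
      rw [Ne, map_eq_zero]
      exact (Valuation.ne_zero_iff _).2 hc
    exact h3 hc'.symm
  have hfr : finrank F L' = ℓ := by
    rw [pb.finrank, hdim]
    omega
  refine ⟨?_, fun x hx => ?_⟩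
  · rw [← Module.finrank_mul_finrank F L' L, hfr]
    exact Dvd.intro _ rfl
  · set y : L' := Algebra.norm L' x with hy
    have hy0 : y ≠ 0 := Algebra.norm_ne_zero_iff.2 hx
    obtain ⟨P, hP1, hP2⟩ := pb.exists_eq_aeval y
    have hP0 : P ≠ 0 := by
      rintro rfl
      rw [map_zero] at hP2
      exact hy0 hP2
    rw [hgen] at hP2
    obtain ⟨c, hc, hc'⟩ := aeval_val hpl hw' hℓ hδ h1' h2' P (by omega) hP0
    refine ⟨c, hc, hm_mono.injective ?_⟩
    rw [map_pow, ← hc', ← hP2, ← Algebra.norm_norm (R := F) (S := L') (A := L), ← hy, ← hw'.norm,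
      hfr]

end red

end Pool.Agent.H89.FP
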