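import Pool.Agent.H89.FP.Ext

/-! Teichmüller representatives in finite extensions of the completions. -/

set_option autoImplicit false
set_option linter.all false

open Polynomial WithZero Filter Topology Module
open scoped Classical NNReal

namespace Pool.Agent.H89.FP

/-- `F` is a complete field with the residue field of degree `δ` over the finite field `k` -/
structure IsPlace (k F : Type) [Field k] [Field F] [Algebra k F]
    [Valued F (WithZero (Multiplicative ℤ))] (δ : ℕ) : Prop where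
  complete : CompleteSpace F
  nontrivial : ∃ x : F, x ≠ 0 ∧ vF F x ≠ 1
  pos : 0 < δ
  res : ∀ x : F, vF F x ≤ 1 → vF F (x ^ (Nat.card k ^ δ) - x) < 1

section tei

variable {k F L : Type} [Field k] [Finite k] [Field F] [Algebra k F]
  [Valued F (WithZero (Multiplicative ℤ))] [Field L] [Algebra F L] [Algebra k L]
  [IsScalarTower k F L] {w : Valuation L ℝ≥0}

theorem card_gt (k : Type) [Field k] [Finite k] : 1 < Nat.card k := Finite.one_lt_card

theorem w_const (w : Valuation L ℝ≥0) (c : k) (hc : c ≠ 0) : w (algebraMap k L c) = 1 := by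
  haveI := Fintype.ofFinite k
  have h1 : c ^ (Nat.card k - 1) = 1 := by
    rw [Nat.card_eq_fintype_card]
    exact FiniteField.pow_card_sub_one_eq_one c hc
  have h2 : w (algebraMap k L c) ^ (Nat.card k - 1) = 1 := by
    rw [← map_pow, ← map_pow, h1, map_one, map_one]
  have h3 := card_gt k
  exact (pow_eq_one_iff_of_nonneg (zero_le) (by omega)).1 h2

theorem w_const_le (w : Valuation L ℝ≥0) (c : k) : w (algebraMap k L c) ≤ 1 := by
  by_cases hc : c = 0
  · rw [hc, map_zero, map_zero]; exact zero_le_one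
  · rw [w_const w c hc]

/-- the powers of the number of elements of `k` are powers of the characteristic -/
theorem frob (k : Type) [Field k] [Finite k] (A : Type) [CommRing A] [Algebra k A] (m : ℕ)
    (x y : A) : (x - y) ^ (Nat.card k ^ m) = x ^ (Nat.card k ^ m) - y ^ (Nat.card k ^ m) := by
  haveI := Fintype.ofFinite k
  obtain ⟨p, hp⟩ := CharP.exists k
  haveI := hp
  haveI : Fact p.Prime := ⟨CharP.char_is_prime k p⟩
  obtain ⟨n, hn1, hn2⟩ := FiniteField.card k p
  haveI : CharP A p ∨ Subsingleton A := by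
    rcases subsingleton_or_nontrivial A with h | h
    · exact Or.inr h
    · exact Or.inl (charP_of_injective_algebraMap (algebraMap k A).injective p)
  rcases this with h | h
  · rw [Nat.card_eq_fintype_card, hn2, ← pow_mul]
    exact sub_pow_char_pow_of_commute p _ (Commute.all x y)
  · exact Subsingleton.elim _ _

theorem frob_add (k : Type) [Field k] [Finite k] (A : Type) [CommRing A] [Algebra k A] (m : ℕ)
    (x y : A) : (x + y) ^ (Nat.card k ^ m) = x ^ (Nat.card k ^ m) + y ^ (Nat.card k ^ m) := by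
  haveI := Fintype.ofFinite k
  obtain ⟨p, hp⟩ := CharP.exists k
  haveI := hp
  haveI : Fact p.Prime := ⟨CharP.char_is_prime k p⟩
  obtain ⟨n, hn1, hn2⟩ := FiniteField.card k p
  haveI : CharP A p ∨ Subsingleton A := by
    rcases subsingleton_or_nontrivial A with h | h
    · exact Or.inr h
    · exact Or.inl (charP_of_injective_algebraMap (algebraMap k A).injective p)
  rcases this with h | h
  · rw [Nat.card_eq_fintype_card, hn2, ← pow_mul]
    exact add_pow_char_pow x y p _
  · exact Subsingleton.elim _ _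

/-- Teichmüller representatives -/
theorem teich (hw : IsExt F L w) (m : ℕ) (a : L) (h : w (a ^ (Nat.card k ^ m) - a) < 1) :
    ∃ α : L, α ^ (Nat.card k ^ m) = α ∧ w (α - a) < 1 := by
  set Q : ℕ := Nat.card k ^ m with hQ
  have hQ1 : 1 ≤ Q := Nat.one_le_pow _ _ (Nat.card_pos)
  set c : ℝ≥0 := w (a ^ Q - a) with hc
  have hfrob : ∀ (j : ℕ) (x y : L), (x - y) ^ (Q ^ j) = x ^ (Q ^ j) - y ^ (Q ^ j) := by
    intro j x y
    rw [hQ, ← pow_mul]
    exact frob k L (m * j) x y
  by_cases hm : m = 0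
  · refine ⟨a, ?_, by simp⟩
    rw [hQ, hm, pow_zero, pow_one]
  have hQ2 : 2 ≤ Q := by
    rw [hQ]
    calc 2 ≤ Nat.card k := card_gt k
      _ = Nat.card k ^ 1 := (pow_one _).symm
      _ ≤ Nat.card k ^ m := Nat.pow_le_pow_right (Nat.card_pos) (by omega)
  have hu : ∀ j, w (a ^ (Q ^ (j + 1)) - a ^ (Q ^ j)) ≤ c ^ (j + 1) := by
    intro j
    have e : a ^ (Q ^ (j + 1)) - a ^ (Q ^ j) = (a ^ Q - a) ^ (Q ^ j) := by
      rw [hfrob, ← pow_mul a, ← pow_succ' Q]
    rw [e, map_pow, ← hc]
    refine pow_le_pow_right_of_le_one' h.le ?_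
    exact Nat.lt_pow_self hQ2
  obtain ⟨α, hα⟩ := hw.lim (fun j => a ^ (Q ^ j)) c h (fun j => (hu j).trans (by
    rw [pow_succ]; exact mul_le_of_le_one_right' h.le))
  have h1 : w (α - a) < 1 := by
    have e : α - a = (α - a ^ (Q ^ 1)) + (a ^ Q - a) := by rw [pow_one]; ring
    rw [e]
    refine (w.map_add _ _).trans_lt (max_lt ((hα 1).trans_lt ?_) h)
    rwa [pow_one]
  refine ⟨α, ?_, h1⟩
  have h2 : ∀ j, w (α ^ Q - α) ≤ c ^ j := by
    intro j
    have e : α ^ Q - α = (α - a ^ (Q ^ j)) ^ Q - (α - a ^ (Q ^ (j + 1))) := by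
      have := hfrob 1 α (a ^ (Q ^ j))
      rw [pow_one] at this
      rw [this, ← pow_mul, ← pow_succ]
      ring
    rw [e]
    refine (w.map_sub _ _).trans (max_le ?_ ((hα (j + 1)).trans ?_))
    · rw [map_pow]
      calc w (α - a ^ (Q ^ j)) ^ Q ≤ (c ^ j) ^ Q := pow_le_pow_left₀ zero_le (hα j) _
        _ ≤ (c ^ j) ^ 1 := pow_le_pow_right_of_le_one' (pow_le_one' h.le j) hQ1
        _ = c ^ j := pow_one _
    · rw [pow_succ]; exact mul_le_of_le_one_right' h.le
  have h3 : Tendsto (fun j : ℕ => c ^ j) atTop (𝓝 0) := NNReal.tendsto_pow_atTop_nhds_zero_of_lt_one h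
  have h4 : w (α ^ Q - α) ≤ 0 := ge_of_tendsto h3 (Eventually.of_forall h2)
  have h5 : w (α ^ Q - α) = 0 := le_antisymm h4 zero_le
  rw [Valuation.zero_iff] at h5
  exact sub_eq_zero.1 h5

/-- an element `a` of a finite field of degree divisible by `ℓ` which generates the field of degree
`ℓ` -/
theorem exists_gen {E : Type} [Field E] [Algebra k E] [FiniteDimensional k E] {ℓ : ℕ}
    (hℓ : ℓ.Prime) (hd : ℓ ∣ finrank k E) : ∃ a : E, a ^ (Nat.card k ^ ℓ) = a ∧
      a ^ Nat.card k ≠ a := by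
  haveI : Finite E := Module.finite_of_finite k
  haveI := Fintype.ofFinite k
  haveI := Fintype.ofFinite E
  set q := Nat.card k with hq
  have hq1 : 1 < q := card_gt k
  obtain ⟨j, hj⟩ := hd
  have hj0 : 0 < j := by
    have : 0 < finrank k E := finrank_pos
    rw [hj] at this
    exact Nat.pos_of_mul_pos_left this
  have hcard : Nat.card E = q ^ (ℓ * j) := by
    rw [← hj, hq, Module.natCard_eq_pow_finrank (K := k)]
  obtain ⟨g, hg⟩ := IsCyclic.exists_ofOrder_eq_natCard (α := Eˣ)
  have hg' : orderOf g = q ^ (ℓ * j) - 1 := by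
    rw [hg, Nat.card_units, hcard]
  have hdvd : q ^ ℓ - 1 ∣ q ^ (ℓ * j) - 1 := by
    rw [pow_mul]
    exact Nat.sub_one_dvd_pow_sub_one _ _
  obtain ⟨M, hM⟩ := hdvd
  have hql : q < q ^ ℓ := by
    calc q = q ^ 1 := (pow_one q).symm
      _ < q ^ ℓ := Nat.pow_lt_pow_right hq1 hℓ.one_lt
  have hqlj : q ^ ℓ ≤ q ^ (ℓ * j) := Nat.pow_le_pow_right (by omega) (Nat.le_mul_of_pos_right _ hj0)
  have hM0 : M ≠ 0 := by
    rintro rfl
    rw [mul_zero] at hM
    omega
  have ho : orderOf (g ^ M) = q ^ ℓ - 1 := by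
    rw [orderOf_pow_of_dvd hM0 (by rw [hg', hM]; exact Dvd.intro_left _ rfl), hg', hM]
    exact Nat.mul_div_cancel _ (Nat.pos_of_ne_zero hM0)
  refine ⟨((g ^ M : Eˣ) : E), ?_, ?_⟩
  · have h1 : (g ^ M) ^ (q ^ ℓ) = g ^ M := by
      have e : q ^ ℓ = (q ^ ℓ - 1) + 1 := by omega
      rw [e, pow_succ, ← ho, pow_orderOf_eq_one, one_mul]
    have h2 := congrArg (fun u : Eˣ => (u : E)) h1
    simpa only [Units.val_pow_eq_pow_val] using h2
  · intro h1
    have h2 : (g ^ M) ^ q = g ^ M := by
      apply Units.ext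
      rw [Units.val_pow_eq_pow_val]
      exact h1
    have h3 : (g ^ M) ^ (q - 1) = 1 := by
      have e : q = (q - 1) + 1 := by omega
      rw [e, pow_succ] at h2
      exact mul_eq_right.1 h2
    have h4 := Nat.le_of_dvd (by omega) (orderOf_dvd_of_pow_eq_one h3)
    omega

end tei

end Pool.Agent.H89.FP
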